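import Pool.Agent.Helper1.SEP.Lift

/-!
# Flexible links through deleted regions: one and two links, induced form

`inG G S`: the edges of `G` inside `S`. `lift_in`: a TOK4 of `inG G S` with a flexible link lifts
if `G` has links of both parities whose inner vertices are outside `S`. `lift_two`: the same with
two flexible links which are realised in disjoint regions.
-/

set_option autoImplicit false

namespace Pool.Agent.Helper1.SEP

open SimpleGraph Pool.Agent.Helper57.TOK Pool.Agent.Helper82.TK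

variable {V : Type*}

/-- The edges of `G` inside `S`. -/
def inG (G : SimpleGraph V) (S : Set V) : SimpleGraph V where
  Adj u v := G.Adj u v ∧ u ∈ S ∧ v ∈ S
  symm := ⟨fun _ _ h => ⟨h.1.symm, h.2.2, h.2.1⟩⟩
  loopless := ⟨fun _ h => h.1.ne rfl⟩

@[simp] lemma inG_adj {G : SimpleGraph V} {S : Set V} {u v : V} :
    (inG G S).Adj u v ↔ G.Adj u v ∧ u ∈ S ∧ v ∈ S := Iff.rfl

lemma inG_le {G : SimpleGraph V} {S : Set V} : inG G S ≤ G := fun _ _ h => h.1

lemma inG_mono {G : SimpleGraph V} {S S' : Set V} (h : S ⊆ S') : inG G S ≤ inG G S' :=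
  fun _ _ hh => ⟨hh.1, h hh.2.1, h hh.2.2⟩

lemma supp_inG {G : SimpleGraph V} {S : Set V} : ∀ x ∈ supp (inG G S), x ∈ S := by
  rintro x ⟨y, -, h, -⟩; exact h

/-- A walk whose vertices lie in `S` is a walk of `inG G S`. -/
lemma exists_inG {G : SimpleGraph V} {S : Set V} {a b : V} (p : G.Walk a b)
    (hp : ∀ x ∈ p.support, x ∈ S) {c : Sym2 V → ZMod 2} : ∃ q : (inG G S).Walk a b,
      (p.IsPath → q.IsPath) ∧ wt c q = wt c p ∧ q.support = p.support := by
  have hin : ∀ e ∈ p.edges, e ∈ (inG G S).edgeSet := by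
    intro e he
    induction e using Sym2.ind with
    | _ x y => exact ⟨Walk.adj_of_mem_edges _ he, hp x (Walk.fst_mem_support_of_mem_edges _ he),
        hp y (Walk.snd_mem_support_of_mem_edges _ he)⟩
  exact ⟨p.transfer _ hin, fun h => h.transfer _, wt_transfer _ _ _, Walk.support_transfer _ _⟩

/-- Flexible link outside `S`. -/
def LinkOut (G : SimpleGraph V) (S : Set V) (a b : V) : Prop :=
  ∀ t : ZMod 2, ∃ R : G.Walk a b, R.IsPath ∧ wt (fun _ => 1) R = t ∧
    ∀ x ∈ R.support, x ∈ S → x = a ∨ x = b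

/-- The edges of a flexible link: the edge `a b` and the handle `m`. -/
def phE (a b m : V) : SimpleGraph V := fromEdgeSet {s(a, b), s(m, a), s(m, b)}

/-- One flexible link. -/
theorem lift_in {G H : SimpleGraph V} {S : Set V} (hHG : H ≤ G) (hHS : ∀ x ∈ supp H, x ∈ S)
    {a b m : V} (ha : a ∈ S) (hb : b ∈ S) (hab : a ≠ b) (hm : m ∉ S)
    (hL : LinkOut G S a b) (hK : HasTOK4s (H ⊔ phE a b m) (fun _ => 1)) :
    HasTOK4s G (fun _ => 1) :=
  lift_phi hHG hHS hm ha hb hab (hL 1) (hL 0) hK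

/-- Two flexible links in disjoint regions `D` and `Q`. -/
theorem lift_two {G : SimpleGraph V} {S D Q : Set V} (hSD : Disjoint S D) (hSQ : Disjoint S Q)
    (hDQ : Disjoint D Q) {a b c d m m' : V} (ha : a ∈ S) (hb : b ∈ S) (hc : c ∈ S) (hd : d ∈ S)
    (hab : a ≠ b) (hcd : c ≠ d) (hm : m ∈ D) (hm' : m' ∈ Q)
    (hD : ∀ t : ZMod 2, ∃ R : G.Walk a b, R.IsPath ∧ wt (fun _ => 1) R = t ∧
      ∀ x ∈ R.support, x ∈ D ∨ x = a ∨ x = b)
    (hQ : ∀ t : ZMod 2, ∃ R : G.Walk c d, R.IsPath ∧ wt (fun _ => 1) R = t ∧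
      ∀ x ∈ R.support, x ∈ Q ∨ x = c ∨ x = d)
    (hK : HasTOK4s ((inG G S ⊔ phE c d m') ⊔ phE a b m) (fun _ => 1)) :
    HasTOK4s G (fun _ => 1) := by
  have hmS : m ∉ S := fun h => (Set.disjoint_left.1 hSD) h hm
  have hmS' : m' ∉ S := fun h => (Set.disjoint_left.1 hSQ) h hm'
  have hmm : m ≠ m' := fun h => (Set.disjoint_left.1 hDQ) hm (h ▸ hm')
  have hphS : ∀ x ∈ supp (phE c d m'), x ∈ S ∨ x = m' := by
    rintro x ⟨y, hy⟩
    unfold phE at hy
    rw [SimpleGraph.fromEdgeSet_adj] at hy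
    simp only [Set.mem_insert_iff, Set.mem_singleton_iff] at hy
    rcases hy.1 with h | h | h
    all_goals
      rw [Sym2.eq_iff] at h
      rcases h with ⟨h1, -⟩ | ⟨h1, -⟩
      · first | exact Or.inl (h1 ▸ hc) | exact Or.inr h1
      · first | exact Or.inl (h1 ▸ hd) | exact Or.inl (h1 ▸ hc)
  have h1 : HasTOK4s (inG G Qᶜ ⊔ phE c d m') (fun _ => 1) := by
    refine lift_in (S := S ∪ {m'}) (sup_le_sup_right (inG_mono ?_) _) ?_ (Or.inl ha) (Or.inl hb)
      hab ?_ ?_ hK
    · intro x hx hxQ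
      exact (Set.disjoint_left.1 hSQ) hx hxQ
    · rintro x ⟨y, hy⟩
      rw [SimpleGraph.sup_adj] at hy
      rcases hy with hy | hy
      · exact Or.inl (supp_inG x ⟨y, hy⟩)
      · exact (hphS x ⟨y, hy⟩).imp id (fun h => h)
    · rintro (h | h)
      · exact hmS h
      · exact hmm h
    · intro t
      obtain ⟨R, r1, r2, r3⟩ := hD t
      obtain ⟨q, q1, q2, q3⟩ := exists_inG (c := fun _ => (1 : ZMod 2)) (S := Qᶜ) R (by
        intro x hx hxQ
        rcases r3 x hx with h | h | h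
        · exact (Set.disjoint_left.1 hDQ) h hxQ
        · exact (Set.disjoint_left.1 hSQ) ha (h ▸ hxQ)
        · exact (Set.disjoint_left.1 hSQ) hb (h ▸ hxQ))
      refine ⟨q.mapLe le_sup_left, (Walk.isPath_mapLe _).2 (q1 r1), ?_, ?_⟩
      · rw [wt_mapLe, q2, r2]
      · intro x hx hxS
        rw [Walk.support_mapLe_eq_support, q3] at hx
        rcases r3 x hx with h | h | h
        · exfalso
          rcases hxS with hxS | hxS
          · exact (Set.disjoint_left.1 hSD) hxS h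
          · rw [Set.mem_singleton_iff] at hxS
            exact (Set.disjoint_left.1 hDQ) h (hxS ▸ hm')
        · exact Or.inl h
        · exact Or.inr h
  refine lift_in (S := Qᶜ) inG_le supp_inG (fun h => (Set.disjoint_left.1 hSQ) hc h)
    (fun h => (Set.disjoint_left.1 hSQ) hd h) hcd (fun h => h hm') ?_ h1
  intro t
  obtain ⟨R, r1, r2, r3⟩ := hQ t
  refine ⟨R, r1, r2, ?_⟩
  intro x hx hxQ
  rcases r3 x hx with h | h
  · exact absurd h hxQ
  · exact h

end Pool.Agent.Helper1.SEP
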