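import Pool.Agent.Helper57.TOK.Merge

/-!
# Blow-up lemma for totally odd K4 subdivisions

Every vertex `u` of `K` is replaced by a path of weight zero from `φ false u` to `φ true u`
(possibly trivial), every edge `u w` of `K` is replaced by a path between an end of the path of
`u` and an end of the path of `w`. As a TOK4 uses at most three edges at a vertex, a TOK4 of `K`
lifts.
-/

set_option autoImplicit false

namespace Pool.Agent.Helper1.SEP

open SimpleGraph Pool.Agent.Helper57.TOK

variable {V W : Type*}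

/-- Switch along a walk between two ends. -/
lemma exists_switch {G : SimpleGraph W} {c : Sym2 W → ZMod 2} {f : Bool → W} {ES : Set W}
    (hE : ∃ E : G.Walk (f false) (f true), E.IsPath ∧ wt c E = 0 ∧ ∀ x ∈ E.support, x ∈ ES)
    (a b : Bool) : ∃ E : G.Walk (f a) (f b), E.IsPath ∧ wt c E = 0 ∧
      (∀ x ∈ E.support, x ∈ ES) ∧ (a = b → ∀ x ∈ E.support, x = f a) := by
  obtain ⟨E, h1, h2, h3⟩ := hE
  have h0 : f false ∈ ES := h3 _ E.start_mem_support
  have h0' : f true ∈ ES := h3 _ E.end_mem_support
  cases a <;> cases b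
  · refine ⟨Walk.nil, Walk.IsPath.nil, by simp, ?_, ?_⟩
    · intro x hx
      simp only [Walk.support_nil, List.mem_cons, List.not_mem_nil, or_false] at hx
      rw [hx]; exact h0
    · intro _ x hx
      simpa using hx
  · exact ⟨E, h1, h2, h3, fun h => by simp at h⟩
  · refine ⟨E.reverse, h1.reverse, by rw [wt_reverse]; exact h2, ?_, fun h => by simp at h⟩
    intro x hx
    rw [Walk.support_reverse, List.mem_reverse] at hx
    exact h3 x hx
  · refine ⟨Walk.nil, Walk.IsPath.nil, by simp, ?_, ?_⟩
    · intro x hx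
      simp only [Walk.support_nil, List.mem_cons, List.not_mem_nil, or_false] at hx
      rw [hx]; exact h0'
    · intro _ x hx
      simpa using hx

/-- BLOW-UP LEMMA. -/
theorem blow {K : SimpleGraph V} {G : SimpleGraph W} {cK : Sym2 V → ZMod 2}
    {cG : Sym2 W → ZMod 2} (φ : Bool → V → W) (ES : V → Set W) (σ : V → V → Bool)
    (lab : W → Sym2 V)
    (hE : ∀ u ∈ supp K, ∃ E : G.Walk (φ false u) (φ true u), E.IsPath ∧ wt cG E = 0 ∧
      ∀ x ∈ E.support, x ∈ ES u)
    (hEd : ∀ u ∈ supp K, ∀ w ∈ supp K, ∀ x, x ∈ ES u → x ∈ ES w → u = w)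
    (hR : ∀ u w, K.Adj u w → ∃ R : G.Walk (φ (σ u w) u) (φ (σ w u) w), R.IsPath ∧
      wt cG R = cK s(u, w) ∧
      ∀ x ∈ R.support, x = φ (σ u w) u ∨ x = φ (σ w u) w ∨
        (lab x = s(u, w) ∧ ∀ z ∈ supp K, x ∉ ES z))
    (hK : HasTOK4s K cK) : HasTOK4s G cG := by
  classical
  obtain ⟨K', hle, hK', hdeg⟩ := hK.exists_deg3
  have hsupp : ∀ z, z ∈ supp K' → z ∈ supp K := fun z ⟨w, hw⟩ => ⟨w, hle hw⟩
  have hφE : ∀ u ∈ supp K, ∀ b, φ b u ∈ ES u := by
    intro u hu b
    obtain ⟨E, -, -, h3⟩ := hE u hu
    cases b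
    · exact h3 _ E.start_mem_support
    · exact h3 _ E.end_mem_support
  -- the choice of the branch end
  have hτ : ∀ u, ∃ b : Bool, ∀ w w', K'.Adj u w → K'.Adj u w' → σ u w ≠ b → σ u w' ≠ b →
      w = w' := by
    intro u
    by_contra hcon
    push Not at hcon
    obtain ⟨w1, w2, h1, h2, h3, h4, h5⟩ := hcon false
    obtain ⟨w3, w4, h6, h7, h8, h9, h10⟩ := hcon true
    have hsub : (({w1, w2, w3, w4} : Finset V) : Set V) ⊆ K'.neighborSet u := by
      intro x hx
      simp only [Finset.coe_insert, Finset.coe_singleton, Set.mem_insert_iff,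
        Set.mem_singleton_iff] at hx
      rcases hx with rfl | rfl | rfl | rfl
      · exact h1
      · exact h2
      · exact h6
      · exact h7
    have e3 : σ u w1 = true := by simpa using h3
    have e4 : σ u w2 = true := by simpa using h4
    have e8 : σ u w3 = false := by simpa using h8
    have e9 : σ u w4 = false := by simpa using h9
    have n13 : w1 ≠ w3 := fun h => by rw [h, e8] at e3; simp at e3
    have n14 : w1 ≠ w4 := fun h => by rw [h, e9] at e3; simp at e3
    have n23 : w2 ≠ w3 := fun h => by rw [h, e8] at e4; simp at e4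
    have n24 : w2 ≠ w4 := fun h => by rw [h, e9] at e4; simp at e4
    have hcard : (({w1, w2, w3, w4} : Finset V)).card = 4 := by
      rw [Finset.card_insert_of_notMem, Finset.card_insert_of_notMem,
        Finset.card_insert_of_notMem, Finset.card_singleton]
      · simpa using h10
      · simp [n23, n24]
      · simp [n13, n14, h5]
    have := Set.ncard_le_ncard hsub (hdeg u).1
    rw [Set.ncard_coe_finset, hcard] at this
    exact absurd (this.trans (hdeg u).2) (by norm_num)
  choose τ hτ using hτ
  let lab' : W → Sym2 V := fun x =>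
    if h : ∃ p : V × V, K'.Adj p.1 p.2 ∧ σ p.1 p.2 ≠ τ p.1 ∧ x ∈ ES p.1 then
      s(h.choose.1, h.choose.2)
    else lab x
  have hlab1 : ∀ x u w, K'.Adj u w → σ u w ≠ τ u → x ∈ ES u → lab' x = s(u, w) := by
    intro x u w h1 h2 h3
    have hex : ∃ p : V × V, K'.Adj p.1 p.2 ∧ σ p.1 p.2 ≠ τ p.1 ∧ x ∈ ES p.1 := ⟨(u, w), h1, h2, h3⟩
    have hdef : lab' x = s(hex.choose.1, hex.choose.2) := by
      simp only [lab']
      rw [dif_pos hex]
    rw [hdef]
    obtain ⟨g1, g2, g3⟩ := hex.choose_spec
    generalize hex.choose = p at g1 g2 g3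
    obtain ⟨u', w'⟩ := p
    have e1 : u' = u :=
      hEd _ (hsupp _ (mem_supp_left g1)) _ (hsupp _ (mem_supp_left h1)) x g3 h3
    subst e1
    have e2 : w' = w := hτ _ _ _ g1 h1 g2 h2
    show s(u', w') = s(u', w)
    rw [e2]
  have hlab2 : ∀ x, (∀ z ∈ supp K, x ∉ ES z) → lab' x = lab x := by
    intro x hx
    simp only [lab']
    rw [dif_neg]
    rintro ⟨p, h1, -, h3⟩
    exact hx p.1 (hsupp _ (mem_supp_left h1)) h3
  refine HasTOK4s.subst (cK := cK) (fun u => φ (τ u) u) lab' ?_ ?_ hK'
  · intro u hu w hw huw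
    have huw' : φ (τ u) u = φ (τ w) w := huw
    exact hEd u (hsupp u hu) w (hsupp w hw) _ (hφE u (hsupp u hu) _)
      (by rw [huw']; exact hφE w (hsupp w hw) _)
  · intro u w huw
    have hu := hsupp u (mem_supp_left huw)
    have hw := hsupp w (mem_supp_right huw)
    have huwne : u ≠ w := huw.ne
    obtain ⟨R, r1, r2, r3⟩ := hR u w (hle huw)
    obtain ⟨E1, a1, a2, a3, a4⟩ := exists_switch (f := fun b => φ b u) (hE u hu) (τ u) (σ u w)
    obtain ⟨E2, b1, b2, b3, b4⟩ := exists_switch (f := fun b => φ b w) (hE w hw) (σ w u) (τ w)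
    have himg : ∀ x, x ∈ (fun u => φ (τ u) u) '' supp K' → ∃ z ∈ supp K', x = φ (τ z) z := by
      rintro x ⟨z, hz, rfl⟩; exact ⟨z, hz, rfl⟩
    -- intersections
    have i1 : ∀ x, x ∈ E1.support → x ∈ R.support → x = φ (σ u w) u := by
      intro x hx hx'
      rcases r3 x hx' with h | h | h
      · exact h
      · exfalso
        exact huwne (hEd u hu w hw x (a3 x hx) (by rw [h]; exact hφE w hw _))
      · exact absurd (a3 x hx) (h.2 u hu)
    have i2 : ∀ x, x ∈ R.support → x ∈ E2.support → x = φ (σ w u) w := by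
      intro x hx hx'
      rcases r3 x hx with h | h | h
      · exfalso
        exact huwne (hEd u hu w hw x (by rw [h]; exact hφE u hu _) (b3 x hx'))
      · exact h
      · exact absurd (b3 x hx') (h.2 w hw)
    have i3 : ∀ x, x ∈ E1.support → x ∈ E2.support → False := fun x hx hx' =>
      huwne (hEd u hu w hw x (a3 x hx) (b3 x hx'))
    have p1 : (E1.append R).IsPath := isPath_append_of _ _ a1 r1 i1
    have p2 : ((E1.append R).append E2).IsPath := by
      refine isPath_append_of _ _ p1 b1 ?_
      intro x hx hx'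
      rw [Walk.mem_support_append_iff] at hx
      rcases hx with hx | hx
      · exact absurd hx' (fun h => i3 x hx h)
      · exact i2 x hx hx'
    refine ⟨(E1.append R).append E2, p2, ?_, ?_⟩
    · rw [wt_append, wt_append, a2, b2, r2]; ring
    · intro x hx
      rw [Walk.mem_support_append_iff, Walk.mem_support_append_iff] at hx
      -- vertices of E1
      have c1 : x ∈ E1.support → x = φ (τ u) u ∨ x = φ (τ w) w ∨
          (lab' x = s(u, w) ∧ x ∉ (fun u => φ (τ u) u) '' supp K') := by
        intro hx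
        by_cases hs : τ u = σ u w
        · exact Or.inl (a4 hs x hx)
        by_cases hxu : x = φ (τ u) u
        · exact Or.inl hxu
        refine Or.inr (Or.inr ⟨hlab1 x u w huw (Ne.symm hs) (a3 x hx), ?_⟩)
        intro hxi
        obtain ⟨z, hz, hxz⟩ := himg x hxi
        have : u = z := hEd u hu z (hsupp z hz) x (a3 x hx)
          (by rw [hxz]; exact hφE z (hsupp z hz) _)
        exact hxu (by rw [hxz, this])
      have c2 : x ∈ E2.support → x = φ (τ u) u ∨ x = φ (τ w) w ∨
          (lab' x = s(u, w) ∧ x ∉ (fun u => φ (τ u) u) '' supp K') := by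
        intro hx
        by_cases hs : σ w u = τ w
        · right; left
          rw [b4 hs x hx, hs]
        by_cases hxw : x = φ (τ w) w
        · exact Or.inr (Or.inl hxw)
        refine Or.inr (Or.inr ⟨?_, ?_⟩)
        · rw [hlab1 x w u huw.symm hs (b3 x hx)]
          exact Sym2.eq_swap
        · intro hxi
          obtain ⟨z, hz, hxz⟩ := himg x hxi
          have : w = z := hEd w hw z (hsupp z hz) x (b3 x hx)
            (by rw [hxz]; exact hφE z (hsupp z hz) _)
          exact hxw (by rw [hxz, this])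
      rcases hx with (hx | hx) | hx
      · exact c1 hx
      · rcases r3 x hx with h | h | h
        · exact c1 (by rw [h]; exact E1.end_mem_support)
        · exact c2 (by rw [h]; exact E2.start_mem_support)
        · refine Or.inr (Or.inr ⟨(hlab2 x h.2).trans h.1, ?_⟩)
          intro hxi
          obtain ⟨z, hz, hxz⟩ := himg x hxi
          exact h.2 z (hsupp z hz) (by rw [hxz]; exact hφE z (hsupp z hz) _)
      · exact c2 hx

end Pool.Agent.Helper1.SEP
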