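import Pool.Agent.Helper1.SEP.Sym
import Pool.Agent.Helper82.TK.Fan

/-!
# Links through the other side, and extraction of a net from a TOK4 of `M + D_k`
-/

set_option autoImplicit false

namespace Pool.Agent.Helper1.SEP

open SimpleGraph Pool.Agent.Helper57.TOK Pool.Agent.Helper82.TK

variable {V : Type*}

/-- One odd link. -/
theorem lift_odd {G H : SimpleGraph V} {S : Set V} (hHG : H ≤ G) (hHS : ∀ x ∈ supp H, x ∈ S)
    {b d : V} (hb : b ∈ S) (hd : d ∈ S) (R : G.Walk b d) (hR : R.IsPath)
    (hw : wt (fun _ => 1) R = 1) (hRS : ∀ x ∈ R.support, x ∈ S → x = b ∨ x = d)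
    (hK : HasTOK4s (H ⊔ fromEdgeSet {s(b, d)}) (fun _ => 1)) : HasTOK4s G (fun _ => 1) := by
  classical
  have hsupp : ∀ x ∈ supp (H ⊔ fromEdgeSet {s(b, d)}), x ∈ S := by
    rintro x ⟨y, hy⟩
    rw [SimpleGraph.sup_adj, SimpleGraph.fromEdgeSet_adj, Set.mem_singleton_iff] at hy
    rcases hy with hy | ⟨hy, -⟩
    · exact hHS x ⟨y, hy⟩
    · rw [Sym2.eq_iff] at hy
      rcases hy with ⟨rfl, -⟩ | ⟨rfl, -⟩
      · exact hb
      · exact hd
  refine HasTOK4s.subst (cK := fun _ => 1) (fun x => x) (fun _ => s(b, d))
    (fun x _ y _ hxy => hxy) ?_ hK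
  intro u w huw
  rw [SimpleGraph.sup_adj, SimpleGraph.fromEdgeSet_adj, Set.mem_singleton_iff] at huw
  rcases huw with huw | ⟨huw, -⟩
  · obtain ⟨Q, q1, q2, q3⟩ := exists_edge_walk (fun _ => (1 : ZMod 2)) (hHG huw)
    refine ⟨Q, q1, q2, ?_⟩
    intro x hx
    rw [q3] at hx
    simp only [List.mem_cons, List.not_mem_nil, or_false] at hx
    rcases hx with hx | hx
    · exact Or.inl hx
    · exact Or.inr (Or.inl hx)
  · have key : ∀ x ∈ R.support, x = b ∨ x = d ∨
        (s(b, d) = s(u, w) ∧ x ∉ (fun x => x) '' supp (H ⊔ fromEdgeSet {s(b, d)})) := by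
      intro x hx
      by_cases hxS : x ∈ S
      · rcases hRS x hx hxS with h | h
        · exact Or.inl h
        · exact Or.inr (Or.inl h)
      · refine Or.inr (Or.inr ⟨huw.symm, ?_⟩)
        rintro ⟨y, hy, rfl⟩
        exact hxS (hsupp _ hy)
    rw [Sym2.eq_iff] at huw
    rcases huw with ⟨rfl, rfl⟩ | ⟨rfl, rfl⟩
    · exact ⟨R, hR, hw, key⟩
    · refine ⟨R.reverse, hR.reverse, by rw [wt_reverse]; exact hw, ?_⟩
      intro x hx
      rw [Walk.support_reverse, List.mem_reverse] at hx
      rcases key x hx with h | h | h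
      · exact Or.inr (Or.inl h)
      · exact Or.inl h
      · exact Or.inr (Or.inr h)

/-- One even link, in `K` a path with the middle vertex `m`. -/
theorem lift_even {G H : SimpleGraph V} {S : Set V} (hHG : H ≤ G) {m b d : V}
    (hHS : ∀ x ∈ supp H, x ∈ S ∧ x ≠ m) (hb : b ∈ S) (hd : d ∈ S)
    (hbd : b ≠ d) (hmb : m ≠ b) (hmd : m ≠ d) (R : G.Walk b d) (hR : R.IsPath)
    (hw : wt (fun _ => 1) R = 0) (hRS : ∀ x ∈ R.support, x ∈ S → x = b ∨ x = d)
    (hK : HasTOK4s (H ⊔ fromEdgeSet {s(m, b), s(m, d)}) (fun _ => 1)) :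
    HasTOK4s G (fun _ => 1) := by
  classical
  cases R with
  | nil => exact absurd rfl hbd
  | @cons _ z _ hbz R2 =>
    rw [Walk.cons_isPath_iff] at hR
    rw [wt_cons] at hw
    have hw2 : wt (fun _ => (1 : ZMod 2)) R2 = 1 := by
      have h2 : (1 : ZMod 2) + 1 = 0 := by decide
      have h3 : (1 : ZMod 2) + wt (fun _ => (1 : ZMod 2)) R2 = 1 + 1 := by rw [h2]; exact hw
      exact add_left_cancel h3
    have hzd : z ≠ d := by
      intro h
      have := wt_loop (c := fun _ => (1 : ZMod 2)) R2 hR.1 h
      rw [hw2] at this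
      exact one_ne_zero this
    have hzS : z ∉ S := by
      intro h
      rcases hRS z (by simp) h with h1 | h1
      · exact hbz.ne h1.symm
      · exact hzd h1
    have hR2S : ∀ x ∈ R2.support, x ∈ S → x = d := by
      intro x hx hxS
      rcases hRS x (by simp [hx]) hxS with h1 | h1
      · exact absurd (h1 ▸ hx) hR.2
      · exact h1
    let φ : V → V := fun x => if x = m then z else x
    have hφm : φ m = z := if_pos rfl
    have hφn : ∀ x, x ≠ m → φ x = x := fun x hx => if_neg hx
    have hsupp : ∀ x ∈ supp (H ⊔ fromEdgeSet {s(m, b), s(m, d)}), x = m ∨ (x ∈ S ∧ x ≠ m) := by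
      rintro x ⟨y, hy⟩
      rw [SimpleGraph.sup_adj, SimpleGraph.fromEdgeSet_adj, Set.mem_insert_iff,
        Set.mem_singleton_iff] at hy
      rcases hy with hy | ⟨hy | hy, -⟩
      · exact Or.inr (hHS x ⟨y, hy⟩)
      · rw [Sym2.eq_iff] at hy
        rcases hy with ⟨h1, -⟩ | ⟨h1, -⟩
        · exact Or.inl h1
        · exact Or.inr ⟨h1 ▸ hb, fun h => hmb (h.symm.trans h1)⟩
      · rw [Sym2.eq_iff] at hy
        rcases hy with ⟨h1, -⟩ | ⟨h1, -⟩
        · exact Or.inl h1
        · exact Or.inr ⟨h1 ▸ hd, fun h => hmd (h.symm.trans h1)⟩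
    have himg : ∀ x, x ∉ S → x ≠ z → x ∉ φ '' supp (H ⊔ fromEdgeSet {s(m, b), s(m, d)}) := by
      rintro x hxS hxz ⟨y, hy, hyx⟩
      rcases hsupp y hy with h | ⟨h1, h2⟩
      · rw [h, hφm] at hyx; exact hxz hyx.symm
      · rw [hφn y h2] at hyx; exact hxS (hyx ▸ h1)
    have hmb' : ∃ Q : G.Walk (φ m) (φ b), Q.IsPath ∧ wt (fun _ => (1 : ZMod 2)) Q = 1 ∧
        ∀ x ∈ Q.support, x = φ m ∨ x = φ b := by
      obtain ⟨Q, q1, q2, q3⟩ := exists_edge_walk (fun _ => (1 : ZMod 2)) hbz.symm
      refine ⟨Q.copy hφm.symm (hφn b (Ne.symm hmb)).symm, by simpa using q1, ?_, ?_⟩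
      · rw [wt_copy]; exact q2
      · intro x hx
        rw [Walk.support_copy, q3] at hx
        rw [hφm, hφn b (Ne.symm hmb)]
        simpa using hx
    have hmd' : ∃ Q : G.Walk (φ m) (φ d), Q.IsPath ∧ wt (fun _ => (1 : ZMod 2)) Q = 1 ∧
        ∀ x ∈ Q.support, x = φ m ∨ x = φ d ∨ (s(m, d) = s(m, d) ∧
          x ∉ φ '' supp (H ⊔ fromEdgeSet {s(m, b), s(m, d)})) := by
      refine ⟨R2.copy hφm.symm (hφn d (Ne.symm hmd)).symm, by simpa using hR.1, ?_, ?_⟩
      · rw [wt_copy]; exact hw2
      · intro x hx
        rw [Walk.support_copy] at hx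
        rw [hφm, hφn d (Ne.symm hmd)]
        by_cases h1 : x = z
        · exact Or.inl h1
        · by_cases h2 : x ∈ S
          · exact Or.inr (Or.inl (hR2S x hx h2))
          · exact Or.inr (Or.inr ⟨rfl, himg x h2 h1⟩)
    refine HasTOK4s.subst (cK := fun _ => 1) φ (fun _ => s(m, d)) ?_ ?_ hK
    · intro x hx y hy hxy
      rcases hsupp x hx with h1 | ⟨h1, h1'⟩ <;> rcases hsupp y hy with h2 | ⟨h2, h2'⟩
      · rw [h1, h2]
      · rw [h1, hφm, hφn y h2'] at hxy
        exact absurd (hxy ▸ h2) hzS
      · rw [h2, hφm, hφn x h1'] at hxy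
        exact absurd (hxy ▸ h1) hzS
      · rw [hφn x h1', hφn y h2'] at hxy; exact hxy
    · intro u w huw
      rw [SimpleGraph.sup_adj, SimpleGraph.fromEdgeSet_adj, Set.mem_insert_iff,
        Set.mem_singleton_iff] at huw
      rcases huw with huw | ⟨huw | huw, -⟩
      · have hu := (hHS u ⟨w, huw⟩).2
        have hw' := (hHS w ⟨u, huw.symm⟩).2
        obtain ⟨Q, q1, q2, q3⟩ := exists_edge_walk (fun _ => (1 : ZMod 2)) (hHG huw)
        refine ⟨Q.copy (hφn u hu).symm (hφn w hw').symm, by simpa using q1, ?_, ?_⟩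
        · rw [wt_copy]; exact q2
        · intro x hx
          rw [Walk.support_copy, q3] at hx
          rw [hφn u hu, hφn w hw']
          simp only [List.mem_cons, List.not_mem_nil, or_false] at hx
          rcases hx with hx | hx
          · exact Or.inl hx
          · exact Or.inr (Or.inl hx)
      · rw [Sym2.eq_iff] at huw
        obtain ⟨Q, q1, q2, q3⟩ := hmb'
        rcases huw with ⟨rfl, rfl⟩ | ⟨rfl, rfl⟩
        · refine ⟨Q, q1, q2, fun x hx => ?_⟩
          rcases q3 x hx with h | h
          · exact Or.inl h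
          · exact Or.inr (Or.inl h)
        · refine ⟨Q.reverse, q1.reverse, by rw [wt_reverse]; exact q2, fun x hx => ?_⟩
          rw [Walk.support_reverse, List.mem_reverse] at hx
          rcases q3 x hx with h | h
          · exact Or.inr (Or.inl h)
          · exact Or.inl h
      · rw [Sym2.eq_iff] at huw
        obtain ⟨Q, q1, q2, q3⟩ := hmd'
        rcases huw with ⟨rfl, rfl⟩ | ⟨rfl, rfl⟩
        · exact ⟨Q, q1, q2, q3⟩
        · refine ⟨Q.reverse, q1.reverse, by rw [wt_reverse]; exact q2, fun x hx => ?_⟩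
          rw [Walk.support_reverse, List.mem_reverse] at hx
          rcases q3 x hx with h | h | h
          · exact Or.inr (Or.inl h)
          · exact Or.inl h
          · exact Or.inr (Or.inr ⟨Sym2.eq_swap, h.2⟩)

lemma fin4_fourth : ∀ α β γ : Fin 4, α ≠ β → α ≠ γ → β ≠ γ →
    ∃ δ : Fin 4, δ ≠ α ∧ δ ≠ β ∧ δ ≠ γ := by decide

/-- EXTRACTION, geometric form: a TOK4 of `H + ab + ad` gives a TOK4 of `G` (one link, odd or
even), or both edges are used at the branch vertex `a`. -/
theorem extract {G H : SimpleGraph V} {S : Set V} (hHG : H ≤ G) (hHS : ∀ x ∈ supp H, x ∈ S)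
    {a b d : V} (ha : a ∈ S) (hb : b ∈ S) (hd : d ∈ S) (hab : a ≠ b) (had : a ≠ d) (hbd : b ≠ d)
    (hR1 : ∃ R : G.Walk a b, R.IsPath ∧ wt (fun _ => 1) R = 1 ∧
      ∀ x ∈ R.support, x ∈ S → x = a ∨ x = b)
    (hR2 : ∃ R : G.Walk a d, R.IsPath ∧ wt (fun _ => 1) R = 1 ∧
      ∀ x ∈ R.support, x ∈ S → x = a ∨ x = d)
    (hR3 : ∃ R : G.Walk b d, R.IsPath ∧ wt (fun _ => 1) R = 0 ∧
      ∀ x ∈ R.support, x ∈ S → x = b ∨ x = d)
    (hK : HasTOK4s (H ⊔ fromEdgeSet {s(a, b), s(a, d)}) (fun _ => 1)) :
    HasTOK4s G (fun _ => 1) ∨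
      Net G (fun _ => 1) S ![b, d, a] (fun t => if t = 2 then 1 else 0) := by
  classical
  obtain ⟨v, P, h⟩ := exists_tokf hK
  have hKadj : ∀ x y, (H ⊔ fromEdgeSet {s(a, b), s(a, d)}).Adj x y ↔
      H.Adj x y ∨ ((s(x, y) = s(a, b) ∨ s(x, y) = s(a, d)) ∧ x ≠ y) := by
    intro x y
    rw [SimpleGraph.sup_adj, SimpleGraph.fromEdgeSet_adj, Set.mem_insert_iff,
      Set.mem_singleton_iff]
  have hKS : ∀ x ∈ supp (H ⊔ fromEdgeSet {s(a, b), s(a, d)}), x ∈ S := by
    rintro x ⟨y, hy⟩
    rw [hKadj] at hy
    rcases hy with hy | ⟨hy | hy, -⟩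
    · exact hHS x ⟨y, hy⟩
    · rw [Sym2.eq_iff] at hy
      rcases hy with ⟨rfl, -⟩ | ⟨rfl, -⟩
      · exact ha
      · exact hb
    · rw [Sym2.eq_iff] at hy
      rcases hy with ⟨rfl, -⟩ | ⟨rfl, -⟩
      · exact ha
      · exact hd
  -- edges of paths
  have hedge : ∀ {x y : V} {e : Sym2 V} (p : (H ⊔ fromEdgeSet {s(a, b), s(a, d)}).Walk x y),
      e ∈ p.edges → e ∈ H.edgeSet ∨ e = s(a, b) ∨ e = s(a, d) := by
    intro x y e p he
    induction e using Sym2.ind with
    | _ u w =>
      have := Walk.adj_of_mem_edges _ he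
      rw [hKadj] at this
      rcases this with h1 | ⟨h1 | h1, -⟩
      · exact Or.inl h1
      · exact Or.inr (Or.inl h1)
      · exact Or.inr (Or.inr h1)
  by_cases hu2 : ∃ i j, i ≠ j ∧ s(a, d) ∈ (P i j).edges
  · by_cases hu1 : ∃ i j, i ≠ j ∧ s(a, b) ∈ (P i j).edges
    · obtain ⟨i, j, hij, h1⟩ := hu1
      obtain ⟨k, m, hkm, h2⟩ := hu2
      by_cases hs : s(i, j) = s(k, m)
      · -- both links in a row
        left
        have h2' : s(a, d) ∈ (P i j).edges := by
          rw [Sym2.eq_iff] at hs
          rcases hs with ⟨h3, h4⟩ | ⟨h3, h4⟩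
          · subst h3; subst h4; exact h2
          · subst h3; subst h4; exact h.symE hkm h2
        have hsame := h.same hij hbd h1 h2'
        obtain ⟨R, r1, r2, r3⟩ := hR3
        refine lift_even (H := delG H {a}) (m := a) ((delG_le H {a}).trans hHG) ?_ hb hd hbd hab
          had R r1 r2 r3 (h.sub ?_)
        · rintro x ⟨y, hy⟩
          rw [delG_adj] at hy
          exact ⟨hHS x ⟨y, hy.1⟩, by simpa using hy.2.1⟩
        · intro k' m' hkm' e he
          refine ⟨?_, rfl⟩
          induction e using Sym2.ind with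
          | _ x y =>
            rw [SimpleGraph.mem_edgeSet, SimpleGraph.sup_adj, SimpleGraph.fromEdgeSet_adj,
              Set.mem_insert_iff, Set.mem_singleton_iff, delG_adj]
            have hne := (Walk.adj_of_mem_edges _ he).ne
            by_cases hxa : x = a
            · subst hxa
              right
              refine ⟨?_, hne⟩
              rcases hsame k' m' hkm' y he with h3 | h3
              · left; rw [h3]
              · right; rw [h3]
            · by_cases hya : y = a
              · subst hya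
                right
                refine ⟨?_, hne⟩
                have e0 : s(y, x) = s(x, y) := Sym2.eq_swap
                have he' : s(y, x) ∈ (P k' m').edges := by rw [e0]; exact he
                rcases hsame k' m' hkm' x he' with h3 | h3
                · left; rw [h3]; exact Sym2.eq_swap
                · right; rw [h3]; exact Sym2.eq_swap
              · left
                rcases hedge _ he with h3 | h3 | h3
                · exact ⟨h3, by simpa using hxa, by simpa using hya⟩
                · rw [Sym2.eq_iff] at h3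
                  rcases h3 with ⟨h3, -⟩ | ⟨-, h3⟩
                  · exact absurd h3 hxa
                  · exact absurd h3 hya
                · rw [Sym2.eq_iff] at h3
                  rcases h3 with ⟨h3, -⟩ | ⟨-, h3⟩
                  · exact absurd h3 hxa
                  · exact absurd h3 hya
      · -- the net
        right
        obtain ⟨α, β, γ, hαβ, hαγ, hβγ, hva, e1, e2⟩ := h.diff hij hkm hs h1 h2
        subst hva
        obtain ⟨δ, hδα, hδβ, hδγ⟩ := fin4_fourth α β γ hαβ hαγ hβγ
        -- walks without the two edges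
        have htr : ∀ {x y : V} (p : (H ⊔ fromEdgeSet {s(v α, b), s(v α, d)}).Walk x y),
            s(v α, b) ∉ p.edges → s(v α, d) ∉ p.edges → ∃ q : G.Walk x y,
              (p.IsPath → q.IsPath) ∧ wt (fun _ => (1 : ZMod 2)) q = wt (fun _ => 1) p ∧
              q.support = p.support := by
          intro x y p n1 n2
          have hin : ∀ e ∈ p.edges, e ∈ G.edgeSet := by
            intro e he
            rcases hedge p he with h3 | h3 | h3
            · exact SimpleGraph.edgeSet_mono hHG h3
            · rw [h3] at he; exact absurd he n1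
            · rw [h3] at he; exact absurd he n2
          exact ⟨p.transfer G hin, fun hp => hp.transfer _, wt_transfer _ _ _,
            Walk.support_transfer _ _⟩
        have hnotin : ∀ {x y : V} (p : (H ⊔ fromEdgeSet {s(v α, b), s(v α, d)}).Walk x y),
            v α ∉ p.support → s(v α, b) ∉ p.edges ∧ s(v α, d) ∉ p.edges := by
          intro x y p hp
          exact ⟨fun h => hp (Walk.fst_mem_support_of_mem_edges _ h),
            fun h => hp (Walk.fst_mem_support_of_mem_edges _ h)⟩
        have hone : ∀ z : ZMod 2, (1 : ZMod 2) = 1 + z → z = 0 := by decide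
        let ι : Fin 3 → Fin 4 := ![β, γ, δ]
        have hι : ∀ t, ι t ≠ α := by
          intro t
          fin_cases t
          · exact Ne.symm hαβ
          · exact Ne.symm hαγ
          · exact hδα
        have hιi : ∀ s t, s ≠ t → ι s ≠ ι t := by
          intro s t hst
          fin_cases s <;> fin_cases t <;> first | exact absurd rfl hst | skip
          · exact hβγ
          · exact Ne.symm hδβ
          · exact Ne.symm hβγ
          · exact Ne.symm hδγ
          · exact hδβ
          · exact hδγ
        have hL : ∀ t, ∃ Q : G.Walk (v (ι t)) ((![b, d, v α] : Fin 3 → V) t), Q.IsPath ∧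
            wt (fun _ => (1 : ZMod 2)) Q = (if t = 2 then 1 else 0) ∧
            (∀ x ∈ Q.support, x ∈ (P α (ι t)).support) ∧ (v α ∈ Q.support → t = 2) := by
          intro t
          have hfirst : ∀ (y : V) (ζ : Fin 4), α ≠ ζ → s(v α, y) ∈ (P α ζ).edges →
              ∃ Q : G.Walk (v ζ) y, Q.IsPath ∧ wt (fun _ => (1 : ZMod 2)) Q = 0 ∧
                (∀ x ∈ Q.support, x ∈ (P α ζ).support) ∧ v α ∉ Q.support := by
            intro y ζ hζ he
            obtain ⟨q, q1, q2, q3, q4, q5⟩ := path_first (fun _ => (1 : ZMod 2)) (P α ζ)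
              (h.path α ζ hζ).1 he
            obtain ⟨r, r1, r2, r3⟩ := htr q (hnotin q q2).1 (hnotin q q2).2
            refine ⟨r.reverse, (r1 q1).reverse, ?_, ?_, ?_⟩
            · rw [wt_reverse, r2]
              apply hone
              rw [← q3]; exact (h.path α ζ hζ).2.symm
            · intro x hx
              rw [Walk.support_reverse, List.mem_reverse, r3] at hx
              exact q4 x hx
            · rw [Walk.support_reverse, List.mem_reverse, r3]
              exact q2
          match t with
          | 0 =>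
            obtain ⟨Q, q1, q2, q3, q4⟩ := hfirst b β hαβ e1
            exact ⟨Q, q1, q2.trans (if_neg (by decide)).symm, q3, fun hh => absurd hh q4⟩
          | 1 =>
            obtain ⟨Q, q1, q2, q3, q4⟩ := hfirst d γ hαγ e2
            exact ⟨Q, q1, q2.trans (if_neg (by decide)).symm, q3, fun hh => absurd hh q4⟩
          | 2 =>
            have hαδ : α ≠ δ := Ne.symm hδα
            obtain ⟨r, r1, r2, r3⟩ := htr (P α δ) (fun hh => by
              have := h.uniq hαβ hαδ e1 hh
              rw [Sym2.congr_right] at this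
              exact hδβ this.symm) (fun hh => by
              have := h.uniq hαγ hαδ e2 hh
              rw [Sym2.congr_right] at this
              exact hδγ this.symm)
            have hQ : ∃ Q : G.Walk (v δ) (v α), Q.IsPath ∧ wt (fun _ => (1 : ZMod 2)) Q = 1 ∧
                (∀ x ∈ Q.support, x ∈ (P α δ).support) := by
              refine ⟨r.reverse, (r1 (h.path α δ hαδ).1).reverse, ?_, ?_⟩
              · rw [wt_reverse, r2]
                exact (h.path α δ hαδ).2
              · intro x hx
                rw [Walk.support_reverse, List.mem_reverse, r3] at hx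
                exact hx
            obtain ⟨Q, q1, q2, q3⟩ := hQ
            exact ⟨Q, q1, q2.trans (if_pos rfl).symm, q3, fun _ => rfl⟩
        choose L l1 l2 l3 l4 using hL
        have hA : ∀ s t, ∃ Q : G.Walk (v (ι s)) (v (ι t)), s ≠ t → (Q.IsPath ∧
            wt (fun _ => (1 : ZMod 2)) Q = 1 ∧ Q.support = (P (ι s) (ι t)).support) := by
          intro s t
          by_cases hst : s = t
          · subst hst
            exact ⟨Walk.nil, fun hh => absurd rfl hh⟩
          · have hst' := hιi s t hst
            have hα : v α ∉ (P (ι s) (ι t)).support := by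
              intro hh
              rcases h.branch hst' hh with h3 | h3
              · exact hι s h3.symm
              · exact hι t h3.symm
            obtain ⟨r, r1, r2, r3⟩ := htr _ (hnotin _ hα).1 (hnotin _ hα).2
            exact ⟨r, fun _ => ⟨r1 (h.path _ _ hst').1, r2.trans (h.path _ _ hst').2, r3⟩⟩
        choose A a1 using hA
        have hsne : ∀ s t r, s ≠ t → s(ι s, ι t) ≠ s(α, ι r) := by
          intro s t r _ hh
          rw [Sym2.eq_iff] at hh
          rcases hh with ⟨h3, -⟩ | ⟨-, h3⟩
          · exact hι s h3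
          · exact hι t h3
        refine ⟨fun t => v (ι t), A, L, ?_, ?_, ?_, ?_, ?_, ?_⟩
        · intro s t hst
          obtain ⟨g1, g2, g3⟩ := a1 s t hst
          refine ⟨g1, g2, fun x hx => hKS x ?_⟩
          rw [g3] at hx
          exact h.mem_supp (hιi s t hst) hx
        · intro t
          exact ⟨l1 t, l2 t, fun x hx => hKS x (h.mem_supp (Ne.symm (hι t)) (l3 t x hx))⟩
        · intro s t hst x hx
          rw [(a1 s t hst).2.2] at hx
          rw [(a1 t s (Ne.symm hst)).2.2]
          exact h.sym (hιi s t hst) hx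
        · intro s t r h1 h2 h3 x hx hx'
          rw [(a1 s t h1).2.2] at hx
          rw [(a1 s r h2).2.2] at hx'
          obtain ⟨g1, g2⟩ := h.disj _ _ _ _ (hιi s t h1) (hιi s r h2) (by
            rw [ne_eq, Sym2.congr_right]; exact hιi t r h3) x hx hx'
          rcases g1 with g1 | g1
          · exact g1
          · rcases g2 with g2 | g2
            · exact g2
            · exact absurd (h.inj (g1.symm.trans g2)) (hιi t r h3)
        · intro s t hst x hx hx'
          obtain ⟨g1, g2⟩ := h.disj _ _ _ _ (Ne.symm (hι s)) (Ne.symm (hι t)) (by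
            rw [ne_eq, Sym2.congr_right]; exact hιi s t hst) x (l3 s x hx) (l3 t x hx')
          have hxα : x = v α := by
            rcases g1 with g1 | g1
            · exact g1
            · rcases g2 with g2 | g2
              · exact g2
              · exact absurd (h.inj (g1.symm.trans g2)) (hιi s t hst)
          rw [hxα] at hx hx'
          exact hst ((l4 s hx).trans (l4 t hx').symm)
        · intro s t r hst x hx hx'
          rw [(a1 s t hst).2.2] at hx
          obtain ⟨g1, g2⟩ := h.disj _ _ _ _ (hιi s t hst) (Ne.symm (hι r)) (hsne s t r hst) x hx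
            (l3 r x hx')
          have hxr : x = v (ι r) := by
            rcases g2 with g2 | g2
            · exfalso
              rw [g2] at hx
              rcases h.branch (hιi s t hst) hx with h3 | h3
              · exact hι s h3.symm
              · exact hι t h3.symm
            · exact g2
          refine ⟨hxr, ?_⟩
          rcases g1 with g1 | g1
          · left
            by_contra hne
            exact hιi r s hne (h.inj (hxr.symm.trans g1))
          · right
            by_contra hne
            exact hιi r t hne (h.inj (hxr.symm.trans g1))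
    · -- only one link
      left
      obtain ⟨R, r1, r2, r3⟩ := hR2
      refine lift_odd hHG hHS ha hd R r1 r2 r3 (h.sub ?_)
      intro i j hij e he
      refine ⟨?_, rfl⟩
      induction e using Sym2.ind with
      | _ x y =>
        have hne := (Walk.adj_of_mem_edges _ he).ne
        rw [SimpleGraph.mem_edgeSet, SimpleGraph.sup_adj, SimpleGraph.fromEdgeSet_adj,
          Set.mem_singleton_iff]
        rcases hedge _ he with h3 | h3 | h3
        · exact Or.inl h3
        · rw [h3] at he; exact absurd ⟨i, j, hij, he⟩ hu1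
        · exact Or.inr ⟨h3, hne⟩
  · left
    obtain ⟨R, r1, r2, r3⟩ := hR1
    refine lift_odd hHG hHS ha hb R r1 r2 r3 (h.sub ?_)
    intro i j hij e he
    refine ⟨?_, rfl⟩
    induction e using Sym2.ind with
    | _ x y =>
      have hne := (Walk.adj_of_mem_edges _ he).ne
      rw [SimpleGraph.mem_edgeSet, SimpleGraph.sup_adj, SimpleGraph.fromEdgeSet_adj,
        Set.mem_singleton_iff]
      rcases hedge _ he with h3 | h3 | h3
      · exact Or.inl h3
      · exact Or.inr ⟨h3, hne⟩
      · rw [h3] at he; exact absurd ⟨i, j, hij, he⟩ hu2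

end Pool.Agent.Helper1.SEP
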