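import Pool.Agent.Helper1.SEP.Extract

/-!
# Lifting through a side

`lift_phi`: the flexible link (edge `a b` and handle `m ~ a, b`).
`lift_II`: the tie `x ~ l 0, l 1, l 2`, `l 0 ~ l 1` lifts through a net with legs even, even, odd.
-/

set_option autoImplicit false

namespace Pool.Agent.Helper1.SEP

open SimpleGraph Pool.Agent.Helper57.TOK Pool.Agent.Helper82.TK

variable {V W : Type*}

/-- A path does not contain a triangle. -/
lemma no_triangle {G : SimpleGraph V} {x y a b m : V} (hab : a ≠ b) (ham : a ≠ m) (hbm : b ≠ m)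
    (p : G.Walk x y) (hp : p.IsPath) (h1 : s(a, b) ∈ p.edges) (h2 : s(m, a) ∈ p.edges)
    (h3 : s(m, b) ∈ p.edges) : False := by
  induction p with
  | nil => simp at h1
  | @cons u w _ h q ih =>
    rw [Walk.cons_isPath_iff] at hp
    rw [Walk.edges_cons, List.mem_cons] at h1 h2 h3
    have hq : ∀ {c d : V}, (c = u ∨ d = u) → s(c, d) ∈ q.edges → False := by
      rintro c d (rfl | rfl) he
      · exact hp.2 (Walk.fst_mem_support_of_mem_edges _ he)
      · exact hp.2 (Walk.snd_mem_support_of_mem_edges _ he)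
    rcases h1 with h1 | h1
    · rw [Sym2.eq_iff] at h1
      rcases h1 with ⟨rfl, rfl⟩ | ⟨rfl, rfl⟩
      · rcases h2 with h2 | h2
        · rw [Sym2.eq_iff] at h2
          rcases h2 with ⟨h4, -⟩ | ⟨h4, -⟩
          · exact ham h4.symm
          · exact hbm h4.symm
        · exact hq (Or.inr rfl) h2
      · rcases h3 with h3 | h3
        · rw [Sym2.eq_iff] at h3
          rcases h3 with ⟨h4, -⟩ | ⟨h4, -⟩
          · exact hbm h4.symm
          · exact ham h4.symm
        · exact hq (Or.inr rfl) h3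
    · rcases h2 with h2 | h2
      · rw [Sym2.eq_iff] at h2
        rcases h2 with ⟨rfl, rfl⟩ | ⟨rfl, rfl⟩
        · rcases h3 with h3 | h3
          · rw [Sym2.eq_iff] at h3
            rcases h3 with ⟨-, h4⟩ | ⟨h4, -⟩
            · exact hab h4.symm
            · exact ham h4.symm
          · exact hq (Or.inl rfl) h3
        · exact hq (Or.inl rfl) h1
      · rcases h3 with h3 | h3
        · rw [Sym2.eq_iff] at h3
          rcases h3 with ⟨rfl, rfl⟩ | ⟨rfl, rfl⟩
          · exact hq (Or.inl rfl) h2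
          · exact hq (Or.inr rfl) h1
        · exact ih hp.1 h1 h2 h3

/-- The flexible link lifts. -/
theorem lift_phi {G H : SimpleGraph V} {S : Set V} (hHG : H ≤ G) {m b d : V}
    (hHS : ∀ x ∈ supp H, x ∈ S) (hmS : m ∉ S) (hb : b ∈ S) (hd : d ∈ S)
    (hbd : b ≠ d)
    (hR1 : ∃ R : G.Walk b d, R.IsPath ∧ wt (fun _ => 1) R = 1 ∧
      ∀ x ∈ R.support, x ∈ S → x = b ∨ x = d)
    (hR0 : ∃ R : G.Walk b d, R.IsPath ∧ wt (fun _ => 1) R = 0 ∧
      ∀ x ∈ R.support, x ∈ S → x = b ∨ x = d)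
    (hK : HasTOK4s (H ⊔ fromEdgeSet {s(b, d), s(m, b), s(m, d)}) (fun _ => 1)) :
    HasTOK4s G (fun _ => 1) := by
  classical
  have hmb : m ≠ b := fun h => hmS (h ▸ hb)
  have hmd : m ≠ d := fun h => hmS (h ▸ hd)
  obtain ⟨v, P, h⟩ := exists_tokf hK
  have hKadj : ∀ x y, (H ⊔ fromEdgeSet {s(b, d), s(m, b), s(m, d)}).Adj x y ↔
      H.Adj x y ∨ ((s(x, y) = s(b, d) ∨ s(x, y) = s(m, b) ∨ s(x, y) = s(m, d)) ∧ x ≠ y) := by
    intro x y
    rw [SimpleGraph.sup_adj, SimpleGraph.fromEdgeSet_adj]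
    simp only [Set.mem_insert_iff, Set.mem_singleton_iff]
  have hedge : ∀ {x y : V} {e : Sym2 V}
      (p : (H ⊔ fromEdgeSet {s(b, d), s(m, b), s(m, d)}).Walk x y),
      e ∈ p.edges → e ∈ H.edgeSet ∨ e = s(b, d) ∨ e = s(m, b) ∨ e = s(m, d) := by
    intro x y e p he
    induction e using Sym2.ind with
    | _ u w =>
      have := Walk.adj_of_mem_edges _ he
      rw [hKadj] at this
      rcases this with h1 | ⟨h1 | h1 | h1, -⟩
      · exact Or.inl h1
      · exact Or.inr (Or.inl h1)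
      · exact Or.inr (Or.inr (Or.inl h1))
      · exact Or.inr (Or.inr (Or.inr h1))
  have hm : ∀ y, (H ⊔ fromEdgeSet {s(b, d), s(m, b), s(m, d)}).Adj m y → y = b ∨ y = d := by
    intro y hy
    rw [hKadj] at hy
    rcases hy with hy | ⟨hy | hy | hy, -⟩
    · exact absurd (hHS m ⟨y, hy⟩) hmS
    · rw [Sym2.eq_iff] at hy
      rcases hy with ⟨h1, -⟩ | ⟨h1, -⟩
      · exact absurd h1 hmb
      · exact absurd h1 hmd
    · rw [Sym2.eq_iff] at hy
      rcases hy with ⟨-, h1⟩ | ⟨h1, -⟩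
      · exact Or.inl h1
      · exact absurd h1 hmb
    · rw [Sym2.eq_iff] at hy
      rcases hy with ⟨-, h1⟩ | ⟨h1, -⟩
      · exact Or.inr h1
      · exact absurd h1 hmd
  by_cases hu : ∃ i j, i ≠ j ∧ s(b, d) ∈ (P i j).edges
  · obtain ⟨i, j, hij, h1⟩ := hu
    by_cases hmm : ∃ k l, k ≠ l ∧ m ∈ (P k l).support
    · exfalso
      obtain ⟨k, l, hkl, hmk⟩ := hmm
      obtain ⟨h2, h3⟩ := h.two hm hkl hmk
      by_cases hs : s(i, j) = s(k, l)
      · have h1' : s(b, d) ∈ (P k l).edges := by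
          rw [Sym2.eq_iff] at hs
          rcases hs with ⟨h3, h4⟩ | ⟨h3, h4⟩
          · subst h3; subst h4; exact h1
          · subst h3; subst h4; exact h.symE hij h1
        exact no_triangle hbd (Ne.symm hmb) (Ne.symm hmd) (P k l) (h.path k l hkl).1 h1' h2 h3
      · have ab := h.disj i j k l hij hkl hs b (Walk.fst_mem_support_of_mem_edges _ h1)
          (Walk.snd_mem_support_of_mem_edges _ h2)
        have ad := h.disj i j k l hij hkl hs d (Walk.snd_mem_support_of_mem_edges _ h1)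
          (Walk.snd_mem_support_of_mem_edges _ h3)
        have e1 : s(b, d) = s(v i, v j) := by
          rcases ab.1 with h3 | h3 <;> rcases ad.1 with h4 | h4
          · exact absurd (h3.trans h4.symm) hbd
          · rw [h3, h4]
          · rw [h3, h4]; exact Sym2.eq_swap
          · exact absurd (h3.trans h4.symm) hbd
        have e2 : s(b, d) = s(v k, v l) := by
          rcases ab.2 with h3 | h3 <;> rcases ad.2 with h4 | h4
          · exact absurd (h3.trans h4.symm) hbd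
          · rw [h3, h4]
          · rw [h3, h4]; exact Sym2.eq_swap
          · exact absurd (h3.trans h4.symm) hbd
        apply hs
        have e3 := e1.symm.trans e2
        rw [Sym2.eq_iff] at e3 ⊢
        rcases e3 with ⟨h3, h4⟩ | ⟨h3, h4⟩
        · exact Or.inl ⟨h.inj h3, h.inj h4⟩
        · exact Or.inr ⟨h.inj h3, h.inj h4⟩
    · obtain ⟨R, r1, r2, r3⟩ := hR1
      refine lift_odd hHG hHS hb hd R r1 r2 r3 (h.sub ?_)
      intro k l hkl e he
      refine ⟨?_, rfl⟩
      induction e using Sym2.ind with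
      | _ x y =>
        have hne := (Walk.adj_of_mem_edges _ he).ne
        rw [SimpleGraph.mem_edgeSet, SimpleGraph.sup_adj, SimpleGraph.fromEdgeSet_adj,
          Set.mem_singleton_iff]
        rcases hedge _ he with h3 | h3 | h3 | h3
        · exact Or.inl h3
        · exact Or.inr ⟨h3, hne⟩
        · rw [h3] at he
          exact absurd ⟨k, l, hkl, Walk.fst_mem_support_of_mem_edges _ he⟩ hmm
        · rw [h3] at he
          exact absurd ⟨k, l, hkl, Walk.fst_mem_support_of_mem_edges _ he⟩ hmm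
  · obtain ⟨R, r1, r2, r3⟩ := hR0
    refine lift_even hHG (fun x hx => ⟨hHS x hx, fun hh => hmS (by rw [← hh]; exact hHS x hx)⟩) hb hd hbd hmb hmd
      R r1 r2 r3 (h.sub ?_)
    intro k l hkl e he
    refine ⟨?_, rfl⟩
    induction e using Sym2.ind with
    | _ x y =>
      have hne := (Walk.adj_of_mem_edges _ he).ne
      rw [SimpleGraph.mem_edgeSet, SimpleGraph.sup_adj, SimpleGraph.fromEdgeSet_adj,
        Set.mem_insert_iff, Set.mem_singleton_iff]
      rcases hedge _ he with h3 | h3 | h3 | h3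
      · exact Or.inl h3
      · rw [h3] at he; exact absurd ⟨k, l, hkl, he⟩ hu
      · exact Or.inr ⟨Or.inl h3, hne⟩
      · exact Or.inr ⟨Or.inr h3, hne⟩

/-- An admissible replacement of the edge `u w` in the blow-up lemma. -/
def Good {K : SimpleGraph V} {G : SimpleGraph W} (cK : Sym2 V → ZMod 2)
    (cG : Sym2 W → ZMod 2) (φ : Bool → V → W) (ES : V → Set W) (σ : V → V → Bool)
    (lab : W → Sym2 V) (u w : V) : Prop :=
  ∃ R : G.Walk (φ (σ u w) u) (φ (σ w u) w), R.IsPath ∧ wt cG R = cK s(u, w) ∧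
    ∀ x ∈ R.support, x = φ (σ u w) u ∨ x = φ (σ w u) w ∨
      (lab x = s(u, w) ∧ ∀ z ∈ supp K, x ∉ ES z)

lemma Good.symm {K : SimpleGraph V} {G : SimpleGraph W} {cK : Sym2 V → ZMod 2}
    {cG : Sym2 W → ZMod 2} {φ : Bool → V → W} {ES : V → Set W} {σ : V → V → Bool}
    {lab : W → Sym2 V} {u w : V} (h : Good (K := K) (G := G) cK cG φ ES σ lab u w) :
    Good (K := K) (G := G) cK cG φ ES σ lab w u := by
  obtain ⟨R, h1, h2, h3⟩ := h
  refine ⟨R.reverse, h1.reverse, ?_, ?_⟩
  · have e : s(w, u) = s(u, w) := Sym2.eq_swap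
    rw [wt_reverse, h2, e]
  · intro x hx
    rw [Walk.support_reverse, List.mem_reverse] at hx
    have e : s(w, u) = s(u, w) := Sym2.eq_swap
    rcases h3 x hx with h4 | h4 | h4
    · exact Or.inr (Or.inl h4)
    · exact Or.inl h4
    · exact Or.inr (Or.inr ⟨h4.1.trans e.symm, h4.2⟩)

/-- The tie `x ~ l 0, l 1, l 2`, `l 0 ~ l 1` lifts through a net of type `(0, 0, 1)`. -/
theorem lift_II {G H : SimpleGraph V} {S S' : Set V} (hHG : H ≤ G) (hHS : ∀ y ∈ supp H, y ∈ S)
    {l : Fin 3 → V} (hlS : ∀ i, l i ∈ S) {x : V} (hxS : x ∉ S)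
    (hN : Net G (fun _ => 1) S' l (fun t => if t = 2 then 1 else 0))
    (hSS : ∀ y, y ∈ S → y ∈ S' → ∃ i, y = l i)
    (hK : HasTOK4s (H ⊔ fromEdgeSet {s(x, l 0), s(x, l 1), s(x, l 2), s(l 0, l 1)})
      (fun _ => 1)) : HasTOK4s G (fun _ => 1) := by
  classical
  obtain ⟨b, A, L, h⟩ := hN
  have hl := h.l_inj
  have hxl : ∀ i, l i ≠ x := fun i hi => hxS (hi ▸ hlS i)
  have n01 : l 0 ≠ l 1 := fun hh => absurd (hl hh) (by decide)
  have n02 : l 0 ≠ l 2 := fun hh => absurd (hl hh) (by decide)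
  have n12 : l 1 ≠ l 2 := fun hh => absurd (hl hh) (by decide)
  have hKadj : ∀ y z, (H ⊔ fromEdgeSet {s(x, l 0), s(x, l 1), s(x, l 2), s(l 0, l 1)}).Adj y z ↔
      H.Adj y z ∨ ((s(y, z) = s(x, l 0) ∨ s(y, z) = s(x, l 1) ∨ s(y, z) = s(x, l 2) ∨
        s(y, z) = s(l 0, l 1)) ∧ y ≠ z) := by
    intro y z
    rw [SimpleGraph.sup_adj, SimpleGraph.fromEdgeSet_adj]
    simp only [Set.mem_insert_iff, Set.mem_singleton_iff]
  set K := H ⊔ fromEdgeSet {s(x, l 0), s(x, l 1), s(x, l 2), s(l 0, l 1)} with hKdef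
  have hsupp : ∀ y ∈ supp K, y = x ∨ (y ∈ S ∧ y ≠ x) := by
    rintro y ⟨z, hz⟩
    by_cases hyx : y = x
    · exact Or.inl hyx
    refine Or.inr ⟨?_, hyx⟩
    rw [hKadj] at hz
    rcases hz with hz | ⟨hz | hz | hz | hz, -⟩
    · exact hHS y ⟨z, hz⟩
    all_goals
      rw [Sym2.eq_iff] at hz
      rcases hz with ⟨h1, -⟩ | ⟨h1, -⟩
      · first | exact absurd h1 hyx | (rw [h1]; exact hlS _)
      · rw [h1]; exact hlS _
  -- a vertex of `S` on a leg
  have hleg : ∀ i y, y ∈ (L i).support → y ∈ S → y = l i := by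
    intro i y hy hyS
    obtain ⟨j, hj⟩ := hSS y hyS ((h.leg i).2.2 y hy)
    by_cases hij : i = j
    · rw [hij]; exact hj
    · exact absurd (by rw [hj]; exact (L j).end_mem_support) (h.leg_leg i j hij y hy)
  have harc : ∀ i j y, i ≠ j → y ∈ (A i j).support → y ∈ S → y = b i ∨ y = b j := by
    intro i j y hij hy hyS
    obtain ⟨k, hk⟩ := hSS y hyS ((h.arc i j hij).2.2 y hy)
    obtain ⟨h1, h2⟩ := h.arc_leg i j k hij y hy (by rw [hk]; exact (L k).end_mem_support)
    rcases h2 with h2 | h2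
    · exact Or.inl (by rw [h1, h2])
    · exact Or.inr (by rw [h1, h2])
  have hb2 : b 2 ∉ S := by
    intro hh
    have h1 := hleg 2 (b 2) (L 2).start_mem_support hh
    have h2 := wt_loop (c := fun _ => (1 : ZMod 2)) (L 2) (h.leg 2).1 h1
    rw [(h.leg 2).2.1] at h2
    simp at h2
  let φ : Bool → V → V := fun c u => if u = x then b 2 else if c = true ∧ u = l 0 then b 0
    else if c = true ∧ u = l 1 then b 1 else u
  let ES : V → Set V := fun u => if u = x then {b 2} else if u = l 0 then {y | y ∈ (L 0).support}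
    else if u = l 1 then {y | y ∈ (L 1).support} else {u}
  let σ : V → V → Bool := fun u w => decide (¬ H.Adj u w)
  let lab : V → Sym2 V := fun y => if y ∈ (A 2 0).support then s(x, l 0) else
    if y ∈ (A 2 1).support then s(x, l 1) else
    if y ∈ (A 0 1).support then s(l 0, l 1) else s(x, l 2)
  have φx : ∀ c, φ c x = b 2 := fun c => by simp [φ]
  have φf : ∀ u, u ≠ x → φ false u = u := fun u hu => by simp [φ, hu]
  have φt0 : φ true (l 0) = b 0 := by simp [φ, hxl 0]
  have φt1 : φ true (l 1) = b 1 := by simp [φ, hxl 1, n01.symm]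
  have φt : ∀ u, u ≠ x → u ≠ l 0 → u ≠ l 1 → φ true u = u := fun u h1 h2 h3 => by
    simp [φ, h1, h2, h3]
  have ESx : ES x = {b 2} := by simp [ES]
  have ES0 : ES (l 0) = {y | y ∈ (L 0).support} := by simp [ES, hxl 0]
  have ES1 : ES (l 1) = {y | y ∈ (L 1).support} := by simp [ES, hxl 1, n01.symm]
  have ESn : ∀ u, u ≠ x → u ≠ l 0 → u ≠ l 1 → ES u = {u} := fun u h1 h2 h3 => by
    simp [ES, h1, h2, h3]
  have σH : ∀ u w, H.Adj u w → σ u w = false := fun u w hh => by simp [σ, hh]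
  have σn : ∀ u w, ¬ H.Adj u w → σ u w = true := fun u w hh => by simp [σ, hh]
  -- what is not in ES
  have hnotES : ∀ y, y ∉ S → y ≠ b 2 → y ∉ (L 0).support → y ∉ (L 1).support →
      ∀ z ∈ supp K, y ∉ ES z := by
    intro y h1 h2 h3 h4 z hz hy
    by_cases e1 : z = x
    · rw [e1, ESx] at hy; exact h2 hy
    by_cases e2 : z = l 0
    · rw [e2, ES0] at hy; exact h3 hy
    by_cases e3 : z = l 1
    · rw [e3, ES1] at hy; exact h4 hy
    rw [ESn z e1 e2 e3, Set.mem_singleton_iff] at hy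
    rcases hsupp z hz with h5 | h5
    · exact e1 h5
    · exact h1 (hy ▸ h5.1)
  have harcES : ∀ i j, i ≠ j → ∀ y ∈ (A i j).support, y ≠ b i → y ≠ b j →
      ∀ z ∈ supp K, y ∉ ES z := by
    intro i j hij y hy hyi hyj
    have hL : ∀ k, y ∉ (L k).support := by
      intro k hk
      obtain ⟨h1, h2⟩ := h.arc_leg i j k hij y hy hk
      rcases h2 with h2 | h2
      · exact hyi (by rw [h1, h2])
      · exact hyj (by rw [h1, h2])
    refine hnotES y ?_ ?_ (hL 0) (hL 1)
    · intro hyS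
      rcases harc i j y hij hy hyS with h1 | h1
      · exact hyi h1
      · exact hyj h1
    · intro hh
      exact hL 2 (by rw [hh]; exact (L 2).start_mem_support)
  have good : ∀ u w, ¬ H.Adj u w → ¬ H.Adj w u →
      (∃ R : G.Walk (φ true u) (φ true w), R.IsPath ∧ wt (fun _ => (1 : ZMod 2)) R = 1 ∧
        ∀ y ∈ R.support, y = φ true u ∨ y = φ true w ∨
        (lab y = s(u, w) ∧ ∀ z ∈ supp K, y ∉ ES z)) →
      Good (K := K) (G := G) (fun _ => 1) (fun _ => 1) φ ES σ lab u w := by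
    intro u w h1 h2 hR
    unfold Good
    rw [σn u w h1, σn w u h2]
    exact hR
  -- the four ties
  have t0 : ¬ H.Adj x (l 0) → ¬ H.Adj (l 0) x →
      Good (K := K) (G := G) (fun _ => 1) (fun _ => 1) φ ES σ lab x (l 0) := by
    intro h1 h2
    refine good _ _ h1 h2 ⟨(A 2 0).copy (φx true).symm φt0.symm, ?_, ?_, ?_⟩
    · rw [Walk.isPath_copy]; exact (h.arc 2 0 (by decide)).1
    · rw [wt_copy]; exact (h.arc 2 0 (by decide)).2.1
    · intro y hy
      rw [Walk.support_copy] at hy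
      rw [φx, φt0]
      by_cases e1 : y = b 2
      · exact Or.inl e1
      by_cases e2 : y = b 0
      · exact Or.inr (Or.inl e2)
      refine Or.inr (Or.inr ⟨?_, harcES 2 0 (by decide) y hy e1 e2⟩)
      simp only [lab, if_pos hy]
  have t1 : ¬ H.Adj x (l 1) → ¬ H.Adj (l 1) x →
      Good (K := K) (G := G) (fun _ => 1) (fun _ => 1) φ ES σ lab x (l 1) := by
    intro h1 h2
    refine good _ _ h1 h2 ⟨(A 2 1).copy (φx true).symm φt1.symm, ?_, ?_, ?_⟩
    · rw [Walk.isPath_copy]; exact (h.arc 2 1 (by decide)).1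
    · rw [wt_copy]; exact (h.arc 2 1 (by decide)).2.1
    · intro y hy
      rw [Walk.support_copy] at hy
      rw [φx, φt1]
      by_cases e1 : y = b 2
      · exact Or.inl e1
      by_cases e2 : y = b 1
      · exact Or.inr (Or.inl e2)
      refine Or.inr (Or.inr ⟨?_, harcES 2 1 (by decide) y hy e1 e2⟩)
      have hn : y ∉ (A 2 0).support := fun hh =>
        e1 (h.arc_arc 2 1 0 (by decide) (by decide) (by decide) y hy hh)
      simp only [lab, if_neg hn, if_pos hy]
  have t01 : ¬ H.Adj (l 0) (l 1) → ¬ H.Adj (l 1) (l 0) →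
      Good (K := K) (G := G) (fun _ => 1) (fun _ => 1) φ ES σ lab (l 0) (l 1) := by
    intro h1 h2
    refine good _ _ h1 h2 ⟨(A 0 1).copy φt0.symm φt1.symm, ?_, ?_, ?_⟩
    · rw [Walk.isPath_copy]; exact (h.arc 0 1 (by decide)).1
    · rw [wt_copy]; exact (h.arc 0 1 (by decide)).2.1
    · intro y hy
      rw [Walk.support_copy] at hy
      rw [φt0, φt1]
      by_cases e1 : y = b 0
      · exact Or.inl e1
      by_cases e2 : y = b 1
      · exact Or.inr (Or.inl e2)
      refine Or.inr (Or.inr ⟨?_, harcES 0 1 (by decide) y hy e1 e2⟩)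
      have hn : y ∉ (A 2 0).support := fun hh =>
        e1 (h.arc_arc 0 1 2 (by decide) (by decide) (by decide) y hy
          (h.rev 2 0 (by decide) y hh))
      have hn' : y ∉ (A 2 1).support := fun hh =>
        e2 (h.arc_arc 1 0 2 (by decide) (by decide) (by decide) y
          (h.rev 0 1 (by decide) y hy) (h.rev 2 1 (by decide) y hh))
      simp only [lab, if_neg hn, if_neg hn', if_pos hy]
  have t2 : ¬ H.Adj x (l 2) → ¬ H.Adj (l 2) x →
      Good (K := K) (G := G) (fun _ => 1) (fun _ => 1) φ ES σ lab x (l 2) := by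
    intro h1 h2
    have φt2 := φt (l 2) (hxl 2) n02.symm n12.symm
    refine good _ _ h1 h2 ⟨(L 2).copy (φx true).symm φt2.symm, ?_, ?_, ?_⟩
    · rw [Walk.isPath_copy]; exact (h.leg 2).1
    · rw [wt_copy, (h.leg 2).2.1]; rfl
    · intro y hy
      rw [Walk.support_copy] at hy
      rw [φx, φt2]
      by_cases e1 : y = b 2
      · exact Or.inl e1
      by_cases e2 : y = l 2
      · exact Or.inr (Or.inl e2)
      refine Or.inr (Or.inr ⟨?_, ?_⟩)
      · have hn : ∀ i j, i ≠ j → y ∉ (A i j).support := fun i j hij hh =>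
          e1 (h.arc_leg i j 2 hij y hh hy).1
        simp only [lab, if_neg (hn 2 0 (by decide)), if_neg (hn 2 1 (by decide)),
          if_neg (hn 0 1 (by decide))]
      · exact hnotES y (fun hh => e2 (hleg 2 y hy hh)) e1
          (fun hh => h.leg_leg 2 0 (by decide) y hy hh)
          (fun hh => h.leg_leg 2 1 (by decide) y hy hh)
  refine blow φ ES σ lab ?_ ?_ ?_ hK
  · -- the paths `E`
    intro u hu
    by_cases e1 : u = x
    · rw [e1, φx, φx, ESx]
      exact ⟨Walk.nil, Walk.IsPath.nil, by simp, by simp⟩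
    by_cases e2 : u = l 0
    · rw [e2, φf _ (hxl 0), φt0, ES0]
      refine ⟨(L 0).reverse, (h.leg 0).1.reverse, ?_, ?_⟩
      · rw [wt_reverse, (h.leg 0).2.1]; rfl
      · intro y hy
        rw [Walk.support_reverse, List.mem_reverse] at hy
        exact hy
    by_cases e3 : u = l 1
    · rw [e3, φf _ (hxl 1), φt1, ES1]
      refine ⟨(L 1).reverse, (h.leg 1).1.reverse, ?_, ?_⟩
      · rw [wt_reverse, (h.leg 1).2.1]; rfl
      · intro y hy
        rw [Walk.support_reverse, List.mem_reverse] at hy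
        exact hy
    · rw [φf u e1, φt u e1 e2 e3, ESn u e1 e2 e3]
      exact ⟨Walk.nil, Walk.IsPath.nil, by simp, by simp⟩
  · -- disjointness
    have key : ∀ u ∈ supp K, ∀ y ∈ ES u, (u = x ∧ y = b 2) ∨ (u = l 0 ∧ y ∈ (L 0).support) ∨
        (u = l 1 ∧ y ∈ (L 1).support) ∨ (y = u ∧ u ∈ S ∧ u ≠ l 0 ∧ u ≠ l 1) := by
      intro u hu y hy
      by_cases e1 : u = x
      · rw [e1, ESx] at hy; exact Or.inl ⟨e1, hy⟩
      by_cases e2 : u = l 0
      · rw [e2, ES0] at hy; exact Or.inr (Or.inl ⟨e2, hy⟩)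
      by_cases e3 : u = l 1
      · rw [e3, ES1] at hy; exact Or.inr (Or.inr (Or.inl ⟨e3, hy⟩))
      rw [ESn u e1 e2 e3, Set.mem_singleton_iff] at hy
      rcases hsupp u hu with h5 | h5
      · exact absurd h5 e1
      · exact Or.inr (Or.inr (Or.inr ⟨hy, h5.1, e2, e3⟩))
    have hb2L : ∀ i, i ≠ 2 → b 2 ∉ (L i).support := fun i hi hh =>
      h.leg_leg i 2 hi _ hh (L 2).start_mem_support
    intro u hu w hw y hy hy'
    rcases key u hu y hy with ⟨a1, a2⟩ | ⟨a1, a2⟩ | ⟨a1, a2⟩ | ⟨a1, a2, a3, a4⟩ <;>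
      rcases key w hw y hy' with ⟨b1, b2⟩ | ⟨b1, b2⟩ | ⟨b1, b2⟩ | ⟨b1, b2, b3, b4⟩
    · rw [a1, b1]
    · rw [a2] at b2; exact absurd b2 (hb2L 0 (by decide))
    · rw [a2] at b2; exact absurd b2 (hb2L 1 (by decide))
    · rw [← b1, a2] at b2; exact absurd b2 hb2
    · rw [b2] at a2; exact absurd a2 (hb2L 0 (by decide))
    · rw [a1, b1]
    · exact absurd b2 (h.leg_leg 0 1 (by decide) y a2)
    · rw [← b1] at b2 b3; exact absurd (hleg 0 y a2 b2) b3
    · rw [b2] at a2; exact absurd a2 (hb2L 1 (by decide))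
    · exact absurd a2 (h.leg_leg 0 1 (by decide) y b2)
    · rw [a1, b1]
    · rw [← b1] at b2 b4; exact absurd (hleg 1 y a2 b2) b4
    · rw [← a1, b2] at a2; exact absurd a2 hb2
    · rw [← a1] at a2 a3; exact absurd (hleg 0 y b2 a2) a3
    · rw [← a1] at a2 a4; exact absurd (hleg 1 y b2 a2) a4
    · rw [← a1, b1]
  · -- the edges
    intro u w huw
    show Good (K := K) (G := G) (fun _ => 1) (fun _ => 1) φ ES σ lab u w
    by_cases hH : H.Adj u w
    · have hu : u ≠ x := fun hh => hxS (hh ▸ hHS u ⟨w, hH⟩)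
      have hw : w ≠ x := fun hh => hxS (hh ▸ hHS w ⟨u, hH.symm⟩)
      unfold Good
      rw [σH u w hH, σH w u hH.symm, φf u hu, φf w hw]
      obtain ⟨Q, q1, q2, q3⟩ := exists_edge_walk (fun _ => (1 : ZMod 2)) (hHG hH)
      refine ⟨Q, q1, q2, ?_⟩
      intro y hy
      rw [q3] at hy
      simp only [List.mem_cons, List.not_mem_nil, or_false] at hy
      rcases hy with hy | hy
      · exact Or.inl hy
      · exact Or.inr (Or.inl hy)
    · have hH' : ¬ H.Adj w u := fun hh => hH hh.symm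
      rw [hKadj] at huw
      rcases huw with huw | ⟨huw | huw | huw | huw, -⟩
      · exact absurd huw hH
      · rw [Sym2.eq_iff] at huw
        rcases huw with ⟨rfl, rfl⟩ | ⟨rfl, rfl⟩
        · exact t0 hH hH'
        · exact (t0 hH' hH).symm
      · rw [Sym2.eq_iff] at huw
        rcases huw with ⟨rfl, rfl⟩ | ⟨rfl, rfl⟩
        · exact t1 hH hH'
        · exact (t1 hH' hH).symm
      · rw [Sym2.eq_iff] at huw
        rcases huw with ⟨rfl, rfl⟩ | ⟨rfl, rfl⟩
        · exact t2 hH hH'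
        · exact (t2 hH' hH).symm
      · rw [Sym2.eq_iff] at huw
        rcases huw with ⟨rfl, rfl⟩ | ⟨rfl, rfl⟩
        · exact t01 hH hH'
        · exact (t01 hH' hH).symm

end Pool.Agent.Helper1.SEP
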