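import Pool.Agent.Helper1.SEP.Blow

/-!
# Tripods and nets of a side of a 3-separation

`Trip G c S l t`: a vertex `z` and three paths inside `S` from `z` to `l 0`, `l 1`, `l 2` of
weights `t 0`, `t 1`, `t 2` which share only `z`.
`Net G c S l p`: three vertices `b 0`, `b 1`, `b 2` inside `S`, pairwise joined by paths of weight
one, and disjoint legs from `b i` to `l i` of weight `p i`.
-/

set_option autoImplicit false

namespace Pool.Agent.Helper1.SEP

open SimpleGraph Pool.Agent.Helper57.TOK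

variable {V : Type*}

lemma wt_loop {G : SimpleGraph V} {c : Sym2 V → ZMod 2} {x y : V} (p : G.Walk x y)
    (hp : p.IsPath) (h : x = y) : wt c p = 0 := by
  subst h
  have : p = Walk.nil := (Walk.isPath_iff_nil.1 hp).eq_nil
  rw [this, wt_nil]

/-- Tripods. -/
def Trip (G : SimpleGraph V) (c : Sym2 V → ZMod 2) (S : Set V) (l : Fin 3 → V)
    (t : Fin 3 → ZMod 2) : Prop :=
  ∃ (z : V) (T : ∀ i, G.Walk z (l i)),
    (∀ i, (T i).IsPath ∧ wt c (T i) = t i ∧ ∀ x ∈ (T i).support, x ∈ S) ∧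
    ∀ i j, i ≠ j → ∀ x, x ∈ (T i).support → x ∈ (T j).support → x = z

/-- Nets, with data. -/
structure IsNet (G : SimpleGraph V) (c : Sym2 V → ZMod 2) (S : Set V) (l : Fin 3 → V)
    (p : Fin 3 → ZMod 2) (b : Fin 3 → V) (A : ∀ i j, G.Walk (b i) (b j))
    (L : ∀ i, G.Walk (b i) (l i)) : Prop where
  arc : ∀ i j, i ≠ j → (A i j).IsPath ∧ wt c (A i j) = 1 ∧ ∀ x ∈ (A i j).support, x ∈ S
  leg : ∀ i, (L i).IsPath ∧ wt c (L i) = p i ∧ ∀ x ∈ (L i).support, x ∈ S
  rev : ∀ i j, i ≠ j → ∀ x, x ∈ (A i j).support → x ∈ (A j i).support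
  arc_arc : ∀ i j k, i ≠ j → i ≠ k → j ≠ k → ∀ x, x ∈ (A i j).support →
    x ∈ (A i k).support → x = b i
  leg_leg : ∀ i j, i ≠ j → ∀ x, x ∈ (L i).support → x ∉ (L j).support
  arc_leg : ∀ i j k, i ≠ j → ∀ x, x ∈ (A i j).support → x ∈ (L k).support →
    x = b k ∧ (k = i ∨ k = j)

/-- Nets. -/
def Net (G : SimpleGraph V) (c : Sym2 V → ZMod 2) (S : Set V) (l : Fin 3 → V)
    (p : Fin 3 → ZMod 2) : Prop :=
  ∃ (b : Fin 3 → V) (A : ∀ i j, G.Walk (b i) (b j)) (L : ∀ i, G.Walk (b i) (l i)),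
    IsNet G c S l p b A L

section

variable {G : SimpleGraph V} {c : Sym2 V → ZMod 2} {S : Set V} {l : Fin 3 → V}
  {p : Fin 3 → ZMod 2} {b : Fin 3 → V} {A : ∀ i j, G.Walk (b i) (b j)}
  {L : ∀ i, G.Walk (b i) (l i)}

lemma IsNet.b_inj (h : IsNet G c S l p b A L) : Function.Injective b := by
  intro i j hij
  by_contra hne
  exact h.leg_leg i j hne (b i) (L i).start_mem_support (by rw [hij]; exact (L j).start_mem_support)

lemma IsNet.l_inj (h : IsNet G c S l p b A L) : Function.Injective l := by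
  intro i j hij
  by_contra hne
  exact h.leg_leg i j hne (l i) (L i).end_mem_support (by rw [hij]; exact (L j).end_mem_support)

lemma Net.perm (h : Net G c S l p) (σ : Equiv.Perm (Fin 3)) :
    Net G c S (fun i => l (σ i)) (fun i => p (σ i)) := by
  obtain ⟨b, A, L, h⟩ := h
  have hσ : ∀ i j, i ≠ j → σ i ≠ σ j := fun i j hij hh => hij (σ.injective hh)
  refine ⟨fun i => b (σ i), fun i j => A (σ i) (σ j), fun i => L (σ i), ?_, ?_, ?_, ?_, ?_, ?_⟩
  · exact fun i j hij => h.arc _ _ (hσ i j hij)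
  · exact fun i => h.leg _
  · exact fun i j hij => h.rev _ _ (hσ i j hij)
  · exact fun i j k h1 h2 h3 => h.arc_arc _ _ _ (hσ i j h1) (hσ i k h2) (hσ j k h3)
  · exact fun i j hij => h.leg_leg _ _ (hσ i j hij)
  · intro i j k hij x hx hx'
    obtain ⟨h1, h2⟩ := h.arc_leg _ _ _ (hσ i j hij) x hx hx'
    exact ⟨h1, h2.imp (fun e => σ.injective e) (fun e => σ.injective e)⟩

lemma Net.mono {S' : Set V} (h : Net G c S l p) (hS : S ⊆ S') : Net G c S' l p := by
  obtain ⟨b, A, L, h⟩ := h
  exact ⟨b, A, L, fun i j hij => ⟨(h.arc i j hij).1, (h.arc i j hij).2.1,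
    fun x hx => hS ((h.arc i j hij).2.2 x hx)⟩, fun i => ⟨(h.leg i).1, (h.leg i).2.1,
    fun x hx => hS ((h.leg i).2.2 x hx)⟩, h.rev, h.arc_arc, h.leg_leg, h.arc_leg⟩

lemma Net.congr {p' : Fin 3 → ZMod 2} (h : Net G c S l p) (hp : ∀ i, p i = p' i) :
    Net G c S l p' := by
  have : p = p' := funext hp
  rwa [← this]

/-- A net contains three tripods. -/
lemma Net.trip (h : Net G c S l p) (a : Fin 3) :
    Trip G c S l (fun i => if i = a then p i else 1 + p i) := by
  obtain ⟨b, A, L, h⟩ := h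
  have hT : ∀ i, ∃ T : G.Walk (b a) (l i), T.IsPath ∧
      wt c T = (if i = a then p i else 1 + p i) ∧ (∀ x ∈ T.support, x ∈ S) ∧
      (∀ x ∈ T.support, x ∈ (L i).support ∨ (i ≠ a ∧ x ∈ (A a i).support)) := by
    intro i
    by_cases hi : i = a
    · subst hi
      refine ⟨L i, (h.leg i).1, ?_, (h.leg i).2.2, fun x hx => Or.inl hx⟩
      rw [if_pos rfl]; exact (h.leg i).2.1
    · refine ⟨(A a i).append (L i), isPath_append_of _ _ (h.arc a i (Ne.symm hi)).1 (h.leg i).1
        ?_, ?_, ?_, ?_⟩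
      · intro x hx hx'
        exact (h.arc_leg a i i (Ne.symm hi) x hx hx').1
      · rw [wt_append, (h.arc a i (Ne.symm hi)).2.1, (h.leg i).2.1, if_neg hi]
      · intro x hx
        rw [Walk.mem_support_append_iff] at hx
        rcases hx with hx | hx
        · exact (h.arc a i (Ne.symm hi)).2.2 x hx
        · exact (h.leg i).2.2 x hx
      · intro x hx
        rw [Walk.mem_support_append_iff] at hx
        rcases hx with hx | hx
        · exact Or.inr ⟨hi, hx⟩
        · exact Or.inl hx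
  choose T t1 t2 t3 t4 using hT
  refine ⟨b a, T, fun i => ⟨t1 i, t2 i, t3 i⟩, ?_⟩
  intro i j hij x hx hx'
  rcases t4 i x hx with h1 | ⟨h1, h1'⟩
  · rcases t4 j x hx' with h2 | ⟨h2, h2'⟩
    · exact absurd h2 (h.leg_leg i j hij x h1)
    · obtain ⟨h3, h4⟩ := h.arc_leg a j i (Ne.symm h2) x h2' h1
      rcases h4 with h4 | h4
      · rw [h3, h4]
      · exact absurd h4 hij
  · rcases t4 j x hx' with h2 | ⟨h2, h2'⟩
    · obtain ⟨h3, h4⟩ := h.arc_leg a i j (Ne.symm h1) x h1' h2
      rcases h4 with h4 | h4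
      · rw [h3, h4]
      · exact absurd h4.symm hij
    · exact h.arc_arc a i j (Ne.symm h1) (Ne.symm h2) hij x h1' h2'

/-- Longer legs. -/
lemma Net.extend (h : Net G c S l p) {S' : Set V} {l' : Fin 3 → V} {s : Fin 3 → ZMod 2}
    (Q : ∀ i, G.Walk (l i) (l' i)) (hQ : ∀ i, (Q i).IsPath ∧ wt c (Q i) = s i)
    (hQd : ∀ i j, i ≠ j → ∀ x, x ∈ (Q i).support → x ∉ (Q j).support)
    (hQS : ∀ i, ∀ x ∈ (Q i).support, x ∈ S → x = l i)
    (hS : S ⊆ S') (hQS' : ∀ i, ∀ x ∈ (Q i).support, x ∈ S') :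
    Net G c S' l' (fun i => p i + s i) := by
  obtain ⟨b, A, L, h⟩ := h
  have hLQ : ∀ i j x, x ∈ (L i).support → x ∈ (Q j).support → i = j ∧ x = l j := by
    intro i j x hx hx'
    have h1 := hQS j x hx' ((h.leg i).2.2 x hx)
    refine ⟨?_, h1⟩
    by_contra hne
    refine h.leg_leg i j hne x hx ?_
    rw [h1]; exact (L j).end_mem_support
  refine ⟨b, A, fun i => (L i).append (Q i), ?_, ?_, h.rev, h.arc_arc, ?_, ?_⟩
  · exact fun i j hij => ⟨(h.arc i j hij).1, (h.arc i j hij).2.1,
      fun x hx => hS ((h.arc i j hij).2.2 x hx)⟩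
  · intro i
    refine ⟨isPath_append_of _ _ (h.leg i).1 (hQ i).1 (fun x hx hx' => (hLQ i i x hx hx').2), ?_, ?_⟩
    · rw [wt_append, (h.leg i).2.1, (hQ i).2]
    · intro x hx
      rw [Walk.mem_support_append_iff] at hx
      rcases hx with hx | hx
      · exact hS ((h.leg i).2.2 x hx)
      · exact hQS' i x hx
  · intro i j hij x hx hx'
    rw [Walk.mem_support_append_iff] at hx hx'
    rcases hx with hx | hx
    · rcases hx' with hx' | hx'
      · exact h.leg_leg i j hij x hx hx'
      · exact hij (hLQ i j x hx hx').1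
    · rcases hx' with hx' | hx'
      · exact hij (hLQ j i x hx' hx).1.symm
      · exact hQd i j hij x hx hx'
  · intro i j k hij x hx hx'
    rw [Walk.mem_support_append_iff] at hx'
    rcases hx' with hx' | hx'
    · exact h.arc_leg i j k hij x hx hx'
    · have h1 := hQS k x hx' ((h.arc i j hij).2.2 x hx)
      refine h.arc_leg i j k hij x hx ?_
      rw [h1]; exact (L k).end_mem_support

end

/-- TOK4 from a triangle of paths and a star. -/
theorem tok_of_star {G : SimpleGraph V} {c : Sym2 V → ZMod 2} {b : Fin 3 → V} {z : V}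
    (A : ∀ i j, G.Walk (b i) (b j)) (S : ∀ i, G.Walk (b i) z)
    (hb : Function.Injective b) (hz : ∀ i, b i ≠ z)
    (arc : ∀ i j, i ≠ j → (A i j).IsPath ∧ wt c (A i j) = 1)
    (rev : ∀ i j, i ≠ j → ∀ x, x ∈ (A i j).support → x ∈ (A j i).support)
    (arc_arc : ∀ i j k, i ≠ j → i ≠ k → j ≠ k → ∀ x, x ∈ (A i j).support →
      x ∈ (A i k).support → x = b i)
    (sp : ∀ i, (S i).IsPath ∧ wt c (S i) = 1)
    (sp_sp : ∀ i j, i ≠ j → ∀ x, x ∈ (S i).support → x ∈ (S j).support → x = z)
    (arc_sp : ∀ i j k, i ≠ j → ∀ x, x ∈ (A i j).support → x ∈ (S k).support →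
      x = b k ∧ (k = i ∨ k = j)) : HasTOK4s G c := by
  classical
  let v : Fin 4 → V := Fin.snoc (α := fun _ => V) b z
  have v1 : ∀ i : Fin 3, v i.castSucc = b i := fun i => by simp [v, Fin.snoc_castSucc]
  have v2 : v (Fin.last 3) = z := Fin.snoc_last (α := fun _ => V) z b
  have hP : ∀ i j : Fin 4, ∃ Q : G.Walk (v i) (v j), i < j → (Q.IsPath ∧ wt c Q = 1 ∧
      ((∃ i' j' : Fin 3, i' ≠ j' ∧ i = i'.castSucc ∧ j = j'.castSucc ∧
          ∀ x ∈ Q.support, x ∈ (A i' j').support) ∨
        (∃ i' : Fin 3, i = i'.castSucc ∧ j = Fin.last 3 ∧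
          ∀ x ∈ Q.support, x ∈ (S i').support))) := by
    intro i j
    refine Fin.lastCases ?_ (fun j' => ?_) j
    · refine Fin.lastCases ?_ (fun i' => ?_) i
      · exact ⟨Walk.nil, fun h => absurd h (lt_irrefl _)⟩
      · refine ⟨(S i').copy (v1 i').symm v2.symm, fun _ => ⟨?_, ?_, Or.inr ⟨i', rfl, rfl, ?_⟩⟩⟩
        · rw [Walk.isPath_copy]; exact (sp i').1
        · rw [wt_copy]; exact (sp i').2
        · intro x hx; rwa [Walk.support_copy] at hx
    · refine Fin.lastCases ?_ (fun i' => ?_) i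
      · exact ⟨(S j').reverse.copy v2.symm (v1 j').symm,
          fun h => absurd h (not_lt_of_ge (Fin.le_last _))⟩
      · by_cases hij : i' = j'
        · subst hij
          exact ⟨Walk.nil, fun h => absurd h (lt_irrefl _)⟩
        · refine ⟨(A i' j').copy (v1 i').symm (v1 j').symm,
            fun _ => ⟨?_, ?_, Or.inl ⟨i', j', hij, rfl, rfl, ?_⟩⟩⟩
          · rw [Walk.isPath_copy]; exact (arc i' j' hij).1
          · rw [wt_copy]; exact (arc i' j' hij).2
          · intro x hx; rwa [Walk.support_copy] at hx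
  choose P hP using hP
  have harc : ∀ i j k l : Fin 3, i ≠ j → k ≠ l → i.castSucc < j.castSucc → k.castSucc < l.castSucc →
      (i, j) ≠ (k, l) → ∀ x, x ∈ (A i j).support → x ∈ (A k l).support →
      (x = b i ∨ x = b j) ∧ (x = b k ∨ x = b l) := by
    intro i j k l hij hkl h1 h2 hne x hx hx'
    have h1' : i < j := by simpa using h1
    have h2' : k < l := by simpa using h2
    by_cases e1 : i = k
    · subst e1
      have hjl : j ≠ l := fun h => hne (by rw [h])
      have := arc_arc i j l hij hkl hjl x hx hx'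
      exact ⟨Or.inl this, Or.inl this⟩
    by_cases e2 : j = l
    · subst e2
      have := arc_arc j i k (Ne.symm hij) (Ne.symm hkl) e1 x (rev i j hij x hx) (rev k j hkl x hx')
      exact ⟨Or.inr this, Or.inr this⟩
    by_cases e3 : i = l
    · subst e3
      have := arc_arc i j k hij (Ne.symm hkl) (by omega) x hx (rev k i hkl x hx')
      exact ⟨Or.inl this, Or.inr this⟩
    by_cases e4 : j = k
    · subst e4
      have := arc_arc j i l (Ne.symm hij) hkl (by omega) x (rev i j hij x hx) hx'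
      exact ⟨Or.inr this, Or.inl this⟩
    exfalso
    omega
  refine ⟨v, ?_, P, fun i j hij => ⟨(hP i j hij).1, (hP i j hij).2.1⟩, ?_⟩
  · intro i j
    refine Fin.lastCases ?_ (fun j' => ?_) j
    · refine Fin.lastCases ?_ (fun i' => ?_) i
      · exact fun _ => rfl
      · intro h
        rw [v1, v2] at h
        exact absurd h (hz i')
    · refine Fin.lastCases ?_ (fun i' => ?_) i
      · intro h
        rw [v1, v2] at h
        exact absurd h.symm (hz j')
      · intro h
        rw [v1, v1] at h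
        rw [hb h]
  · intro i j k l hij hkl hne x hx hx'
    obtain ⟨-, -, h1⟩ := hP i j hij
    obtain ⟨-, -, h2⟩ := hP k l hkl
    rcases h1 with ⟨i', j', hij', rfl, rfl, h1⟩ | ⟨i', rfl, rfl, h1⟩
    · rcases h2 with ⟨k', l', hkl', rfl, rfl, h2⟩ | ⟨k', rfl, rfl, h2⟩
      · simp only [v1]
        refine harc i' j' k' l' hij' hkl' hij hkl ?_ x (h1 x hx) (h2 x hx')
        intro hh
        simp only [Prod.mk.injEq] at hh
        exact hne (by rw [hh.1, hh.2])
      · simp only [v1, v2]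
        obtain ⟨h3, h4⟩ := arc_sp i' j' k' hij' x (h1 x hx) (h2 x hx')
        refine ⟨?_, Or.inl h3⟩
        rcases h4 with h4 | h4
        · exact Or.inl (by rw [h3, h4])
        · exact Or.inr (by rw [h3, h4])
    · rcases h2 with ⟨k', l', hkl', rfl, rfl, h2⟩ | ⟨k', rfl, rfl, h2⟩
      · simp only [v1, v2]
        obtain ⟨h3, h4⟩ := arc_sp k' l' i' hkl' x (h2 x hx') (h1 x hx)
        refine ⟨Or.inl h3, ?_⟩
        rcases h4 with h4 | h4
        · exact Or.inl (by rw [h3, h4])
        · exact Or.inr (by rw [h3, h4])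
      · simp only [v1, v2]
        have hne' : i' ≠ k' := fun h => hne (by rw [h])
        have := sp_sp i' k' hne' x (h1 x hx) (h2 x hx')
        exact ⟨Or.inr this, Or.inr this⟩

/-- PRISM: a net on one side and a tripod on the other side, complementary legs. -/
theorem tok_of_net_trip {G : SimpleGraph V} {c : Sym2 V → ZMod 2} {S S' : Set V}
    {l : Fin 3 → V} {u t : Fin 3 → ZMod 2} (hN : Net G c S l u) (hT : Trip G c S' l t)
    (hut : ∀ i, u i + t i = 1) (hSS : ∀ x, x ∈ S → x ∈ S' → ∃ i, x = l i) : HasTOK4s G c := by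
  obtain ⟨b, A, L, h⟩ := hN
  obtain ⟨z, T, h1, h2⟩ := hT
  have hroot : ∀ i x, x ∈ (L i).support → x ∈ S' → x = l i := by
    intro i x hx hx'
    obtain ⟨j, hj⟩ := hSS x ((h.leg i).2.2 x hx) hx'
    by_cases hij : i = j
    · rw [hij]; exact hj
    · exact absurd (by rw [hj]; exact (L j).end_mem_support) (h.leg_leg i j hij x hx)
  have hLT : ∀ i j x, x ∈ (L i).support → x ∈ (T j).support → x = l i ∧ (i ≠ j → x = z) := by
    intro i j x hx hx'
    have h3 := hroot i x hx ((h1 j).2.2 x hx')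
    refine ⟨h3, fun hij => h2 i j hij x ?_ hx'⟩
    rw [h3]; exact (T i).end_mem_support
  have hno : ∀ m, b m = l m → z = l m → False := by
    intro m e1 e2
    have a1 := wt_loop (c := c) (L m) (h.leg m).1 e1
    have a2 := wt_loop (c := c) (T m) (h1 m).1 e2
    have := hut m
    rw [← (h.leg m).2.1, ← (h1 m).2.1, a1, a2] at this
    simp at this
  refine tok_of_star (z := z) A (fun i => (L i).append (T i).reverse) h.b_inj ?_
    (fun i j hij => ⟨(h.arc i j hij).1, (h.arc i j hij).2.1⟩) h.rev h.arc_arc ?_ ?_ ?_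
  · intro i hi
    have hz : z ∈ (T i).support := (T i).start_mem_support
    have h3 := hroot i (b i) (L i).start_mem_support (by rw [hi]; exact (h1 i).2.2 z hz)
    exact hno i h3 (hi ▸ h3)
  · intro i
    refine ⟨isPath_append_of _ _ (h.leg i).1 (h1 i).1.reverse ?_, ?_⟩
    · intro x hx hx'
      rw [Walk.support_reverse, List.mem_reverse] at hx'
      exact (hLT i i x hx hx').1
    · rw [wt_append, wt_reverse, (h.leg i).2.1, (h1 i).2.1, hut]
  · intro i j hij x hx hx'
    rw [Walk.mem_support_append_iff, Walk.support_reverse, List.mem_reverse] at hx hx'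
    rcases hx with hx | hx
    · rcases hx' with hx' | hx'
      · exact absurd hx' (h.leg_leg i j hij x hx)
      · exact (hLT i j x hx hx').2 hij
    · rcases hx' with hx' | hx'
      · exact (hLT j i x hx' hx).2 (Ne.symm hij)
      · exact h2 i j hij x hx hx'
  · intro i j k hij x hx hx'
    rw [Walk.mem_support_append_iff, Walk.support_reverse, List.mem_reverse] at hx'
    rcases hx' with hx' | hx'
    · exact h.arc_leg i j k hij x hx hx'
    · obtain ⟨m, hm⟩ := hSS x ((h.arc i j hij).2.2 x hx) ((h1 k).2.2 x hx')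
      have hxm : x ∈ (L m).support := by rw [hm]; exact (L m).end_mem_support
      obtain ⟨h3, h4⟩ := h.arc_leg i j m hij x hx hxm
      by_cases hmk : m = k
      · subst hmk; exact ⟨h3, h4⟩
      · exfalso
        have h5 := (hLT m k x hxm hx').2 hmk
        exact hno m (h3.symm.trans hm) (h5.symm.trans hm)

end Pool.Agent.Helper1.SEP
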