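import Pool.Agent.Helper1.SEP.Net
import Pool.Agent.Helper82.TK.Project

/-!
# TOK4 with symmetric indices, used edges
-/

set_option autoImplicit false

namespace Pool.Agent.Helper1.SEP

open SimpleGraph Pool.Agent.Helper57.TOK Pool.Agent.Helper82.TK

variable {V : Type*}

/-- The data of a TOK4 with all (ordered) pairs of indices. -/
structure TOKf (F : SimpleGraph V) (C : Sym2 V → ZMod 2) (v : Fin 4 → V)
    (P : ∀ i j : Fin 4, F.Walk (v i) (v j)) : Prop where
  inj : Function.Injective v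
  path : ∀ i j : Fin 4, i ≠ j → (P i j).IsPath ∧ wt C (P i j) = 1
  rev : ∀ i j : Fin 4, i ≠ j → P j i = (P i j).reverse
  disj : ∀ i j k l : Fin 4, i ≠ j → k ≠ l → s(i, j) ≠ s(k, l) →
    ∀ x : V, x ∈ (P i j).support → x ∈ (P k l).support →
      ((x = v i ∨ x = v j) ∧ (x = v k ∨ x = v l))

lemma exists_tokf {F : SimpleGraph V} {C : Sym2 V → ZMod 2} (h : HasTOK4s F C) :
    ∃ v P, TOKf F C v P := by
  obtain ⟨v, P, h⟩ := hasTOK4s_iff_isTOK.1 h
  have hP : ∀ i j : Fin 4, ∃ Q : F.Walk (v i) (v j), (i < j → Q = P i j) ∧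
      (j < i → Q = (P j i).reverse) := by
    intro i j
    rcases lt_trichotomy i j with hij | hij | hij
    · exact ⟨P i j, fun _ => rfl, fun hh => absurd hh (not_lt_of_gt hij)⟩
    · subst hij
      exact ⟨Walk.nil, fun hh => absurd hh (lt_irrefl _), fun hh => absurd hh (lt_irrefl _)⟩
    · exact ⟨(P j i).reverse, fun hh => absurd hh (not_lt_of_gt hij), fun _ => rfl⟩
  choose Q q1 q2 using hP
  have hrev : ∀ i j, i ≠ j → Q j i = (Q i j).reverse := by
    intro i j hij
    rcases lt_or_gt_of_ne hij with h1 | h1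
    · rw [q1 i j h1, q2 j i h1]
    · rw [q2 i j h1, q1 j i h1, Walk.reverse_reverse]
  refine ⟨v, Q, h.inj, ?_, hrev, ?_⟩
  · intro i j hij
    rcases lt_or_gt_of_ne hij with h1 | h1
    · rw [q1 i j h1]; exact h.path i j h1
    · rw [q2 i j h1]
      exact ⟨(h.path j i h1).1.reverse, by rw [wt_reverse]; exact (h.path j i h1).2⟩
  · have key : ∀ i j k l : Fin 4, i < j → k < l → s(i, j) ≠ s(k, l) →
        ∀ x : V, x ∈ (Q i j).support → x ∈ (Q k l).support →
          ((x = v i ∨ x = v j) ∧ (x = v k ∨ x = v l)) := by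
      intro i j k l hij hkl hne x hx hx'
      rw [q1 i j hij] at hx
      rw [q1 k l hkl] at hx'
      refine h.disj i j k l hij hkl ?_ x hx hx'
      intro hh
      rw [Prod.mk.injEq] at hh
      exact hne (by rw [hh.1, hh.2])
    have key2 : ∀ i j k l : Fin 4, i ≠ j → k < l → s(i, j) ≠ s(k, l) →
        ∀ x : V, x ∈ (Q i j).support → x ∈ (Q k l).support →
          ((x = v i ∨ x = v j) ∧ (x = v k ∨ x = v l)) := by
      intro i j k l hij hkl hne x hx hx'
      rcases lt_or_gt_of_ne hij with h1 | h1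
      · exact key i j k l h1 hkl hne x hx hx'
      · rw [hrev j i (Ne.symm hij), Walk.support_reverse, List.mem_reverse] at hx
        have := key j i k l h1 hkl (fun hh => hne (by rw [← hh]; exact Sym2.eq_swap)) x hx hx'
        exact ⟨this.1.symm, this.2⟩
    intro i j k l hij hkl hne x hx hx'
    rcases lt_or_gt_of_ne hkl with h1 | h1
    · exact key2 i j k l hij h1 hne x hx hx'
    · rw [hrev l k (Ne.symm hkl), Walk.support_reverse, List.mem_reverse] at hx'
      have := key2 i j l k hij h1 (fun hh => hne (by rw [hh]; exact Sym2.eq_swap)) x hx hx'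
      exact ⟨this.1, this.2.symm⟩

section

variable {F : SimpleGraph V} {C : Sym2 V → ZMod 2} {v : Fin 4 → V}
  {P : ∀ i j : Fin 4, F.Walk (v i) (v j)}

lemma TOKf.sym (h : TOKf F C v P) {i j : Fin 4} (hij : i ≠ j) {x : V}
    (hx : x ∈ (P i j).support) : x ∈ (P j i).support := by
  rw [h.rev i j hij, Walk.support_reverse, List.mem_reverse]; exact hx

lemma TOKf.symE (h : TOKf F C v P) {i j : Fin 4} (hij : i ≠ j) {e : Sym2 V}
    (he : e ∈ (P i j).edges) : e ∈ (P j i).edges := by
  rw [h.rev i j hij, Walk.edges_reverse, List.mem_reverse]; exact he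

/-- branch vertices on paths -/
lemma TOKf.branch (h : TOKf F C v P) {i j k : Fin 4} (hij : i ≠ j)
    (hk : v k ∈ (P i j).support) : k = i ∨ k = j := by
  by_contra hcon
  push Not at hcon
  have hne : s(i, j) ≠ s(k, i) := by
    intro hh
    rw [Sym2.eq_iff] at hh
    rcases hh with ⟨h1, -⟩ | ⟨-, h1⟩
    · exact hcon.1 h1.symm
    · exact hcon.2 h1.symm
  rcases (h.disj i j k i hij hcon.1 hne _ hk (P k i).start_mem_support).1 with h1 | h1
  · exact hcon.1 (h.inj h1)
  · exact hcon.2 (h.inj h1)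

/-- different paths have no common edge -/
lemma TOKf.uniq (h : TOKf F C v P) {i j k l : Fin 4} (hij : i ≠ j) (hkl : k ≠ l) {e : Sym2 V}
    (h1 : e ∈ (P i j).edges) (h2 : e ∈ (P k l).edges) : s(i, j) = s(k, l) := by
  induction e using Sym2.ind with
  | _ x y =>
    by_contra hne
    have hxy : x ≠ y := (Walk.adj_of_mem_edges _ h1).ne
    have ax := h.disj i j k l hij hkl hne x (Walk.fst_mem_support_of_mem_edges _ h1)
      (Walk.fst_mem_support_of_mem_edges _ h2)
    have ay := h.disj i j k l hij hkl hne y (Walk.snd_mem_support_of_mem_edges _ h1)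
      (Walk.snd_mem_support_of_mem_edges _ h2)
    have e1 : s(x, y) = s(v i, v j) := by
      rcases ax.1 with h3 | h3 <;> rcases ay.1 with h4 | h4
      · exact absurd (h3.trans h4.symm) hxy
      · rw [h3, h4]
      · rw [h3, h4]; exact Sym2.eq_swap
      · exact absurd (h3.trans h4.symm) hxy
    have e2 : s(x, y) = s(v k, v l) := by
      rcases ax.2 with h3 | h3 <;> rcases ay.2 with h4 | h4
      · exact absurd (h3.trans h4.symm) hxy
      · rw [h3, h4]
      · rw [h3, h4]; exact Sym2.eq_swap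
      · exact absurd (h3.trans h4.symm) hxy
    apply hne
    have e3 := e1.symm.trans e2
    rw [Sym2.eq_iff] at e3 ⊢
    rcases e3 with ⟨h3, h4⟩ | ⟨h3, h4⟩
    · exact Or.inl ⟨h.inj h3, h.inj h4⟩
    · exact Or.inr ⟨h.inj h3, h.inj h4⟩

lemma TOKf.mem_supp (h : TOKf F C v P) {i j : Fin 4} (hij : i ≠ j) {x : V}
    (hx : x ∈ (P i j).support) : x ∈ supp F := by
  refine mem_supp_of_mem_support _ ?_ x hx
  obtain ⟨z, hz, -⟩ := exists_first_edge (P i j) (fun hh => hij (h.inj hh))
  exact ⟨z, hz⟩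

/-- All walks lie in a subgraph. -/
lemma TOKf.sub (h : TOKf F C v P) {F' : SimpleGraph V} {C' : Sym2 V → ZMod 2}
    (hsub : ∀ i j, i ≠ j → ∀ e ∈ (P i j).edges, e ∈ F'.edgeSet ∧ C e = C' e) :
    HasTOK4s F' C' := by
  refine ⟨v, h.inj, fun i j => if hij : i = j then (Walk.nil : F'.Walk (v i) (v i)).copy rfl
    (by rw [hij]) else (P i j).transfer F' (fun e he => (hsub i j hij e he).1), ?_, ?_⟩
  · intro i j hij
    have hne := ne_of_lt hij
    simp only [dif_neg hne]
    refine ⟨(h.path i j hne).1.transfer _, ?_⟩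
    rw [wt_transfer, ← (h.path i j hne).2]
    exact (wt_congr C C' _ (fun e he => (hsub i j hne e he).2)).symm
  · intro i j k l hij hkl hne x hx hx'
    have h1 := ne_of_lt hij
    have h2 := ne_of_lt hkl
    simp only [dif_neg h1, dif_neg h2, Walk.support_transfer] at hx hx'
    refine h.disj i j k l h1 h2 ?_ x hx hx'
    intro hh
    rw [Sym2.eq_iff] at hh
    rcases hh with ⟨h3, h4⟩ | ⟨h3, h4⟩
    · exact hne (by rw [h3, h4])
    · subst h3; subst h4
      exact absurd hij (not_lt_of_gt hkl)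

end

/-- The first edge of a path. -/
lemma path_first {G : SimpleGraph V} {a y b : V} (c : Sym2 V → ZMod 2) (p : G.Walk a y)
    (hp : p.IsPath) (he : s(a, b) ∈ p.edges) : ∃ q : G.Walk b y, q.IsPath ∧ a ∉ q.support ∧
      wt c p = c s(a, b) + wt c q ∧ (∀ x ∈ q.support, x ∈ p.support) ∧
      (∀ e ∈ q.edges, e ∈ p.edges) := by
  cases p with
  | nil => simp at he
  | @cons _ w _ h q =>
    rw [Walk.cons_isPath_iff] at hp
    rw [Walk.edges_cons, List.mem_cons] at he
    rcases he with h1 | h1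
    · have hw : b = w := by rwa [Sym2.congr_right] at h1
      subst hw
      exact ⟨q, hp.1, hp.2, by rw [wt_cons], fun x hx => by simp [hx], fun e he => by simp [he]⟩
    · exact absurd (Walk.fst_mem_support_of_mem_edges _ h1) hp.2

/-- An inner vertex of a path has two neighbours on it. -/
lemma path_inner {G : SimpleGraph V} {a y x : V} (p : G.Walk a y) (hp : p.IsPath)
    (hx : x ∈ p.support) (hxa : x ≠ a) (hxy : x ≠ y) :
    ∃ z z', z ≠ z' ∧ s(x, z) ∈ p.edges ∧ s(x, z') ∈ p.edges := by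
  classical
  have hspec := p.take_spec hx
  obtain ⟨z, hz, hze⟩ := exists_last_edge (p.takeUntil x hx) (Ne.symm hxa)
  obtain ⟨z', hz', hze'⟩ := exists_first_edge (p.dropUntil x hx) hxy
  have hedge : ∀ e, e ∈ (p.takeUntil x hx).edges ∨ e ∈ (p.dropUntil x hx).edges → e ∈ p.edges := by
    intro e he
    rw [← hspec, Walk.edges_append, List.mem_append]
    exact he
  refine ⟨z, z', ?_, ?_, hedge _ (Or.inr hze')⟩
  · intro hzz
    subst hzz
    have hnd := hp.support_nodup
    rw [← hspec, Walk.support_append, List.nodup_append] at hnd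
    have h1 : z ∈ (p.takeUntil x hx).support := Walk.fst_mem_support_of_mem_edges _ hze
    have h2 : z ∈ (p.dropUntil x hx).support := Walk.snd_mem_support_of_mem_edges _ hze'
    have h3 : z ∈ (p.dropUntil x hx).support.tail := by
      have h4 : (p.dropUntil x hx).support = x :: (p.dropUntil x hx).support.tail :=
        (Walk.cons_tail_support _).symm
      rw [h4, List.mem_cons] at h2
      rcases h2 with h2 | h2
      · exact absurd h2.symm hz'.ne
      · exact h2
    exact hnd.2.2 z h1 z h3 rfl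
  · rw [Sym2.eq_swap]
    exact hedge _ (Or.inl hze)

section

variable {F : SimpleGraph V} {C : Sym2 V → ZMod 2} {v : Fin 4 → V}
  {P : ∀ i j : Fin 4, F.Walk (v i) (v j)}

/-- Two edges at `a` used on two different paths: `a` is a branch vertex. -/
lemma TOKf.diff (h : TOKf F C v P) {i j k m : Fin 4} (hij : i ≠ j) (hkm : k ≠ m)
    (hne : s(i, j) ≠ s(k, m)) {a b d : V} (h1 : s(a, b) ∈ (P i j).edges)
    (h2 : s(a, d) ∈ (P k m).edges) : ∃ α β γ : Fin 4, α ≠ β ∧ α ≠ γ ∧ β ≠ γ ∧ v α = a ∧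
      s(a, b) ∈ (P α β).edges ∧ s(a, d) ∈ (P α γ).edges := by
  obtain ⟨h3, h4⟩ := h.disj i j k m hij hkm hne a (Walk.fst_mem_support_of_mem_edges _ h1)
    (Walk.fst_mem_support_of_mem_edges _ h2)
  have g1 : ∃ α β, α ≠ β ∧ v α = a ∧ s(a, b) ∈ (P α β).edges ∧ s(α, β) = s(i, j) := by
    rcases h3 with h3 | h3
    · exact ⟨i, j, hij, h3.symm, h1, rfl⟩
    · exact ⟨j, i, Ne.symm hij, h3.symm, h.symE hij h1, Sym2.eq_swap⟩
  have g2 : ∃ α β, α ≠ β ∧ v α = a ∧ s(a, d) ∈ (P α β).edges ∧ s(α, β) = s(k, m) := by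
    rcases h4 with h4 | h4
    · exact ⟨k, m, hkm, h4.symm, h2, rfl⟩
    · exact ⟨m, k, Ne.symm hkm, h4.symm, h.symE hkm h2, Sym2.eq_swap⟩
  obtain ⟨α, β, a1, a2, a3, a4⟩ := g1
  obtain ⟨α', γ, b1, b2, b3, b4⟩ := g2
  have hαα : α = α' := h.inj (a2.trans b2.symm)
  subst hαα
  refine ⟨α, β, γ, a1, b1, ?_, a2, a3, b3⟩
  intro hh
  subst hh
  exact hne (a4.symm.trans b4)

/-- Two edges at `a` used on the same path: `a` is an inner vertex. -/
lemma TOKf.same (h : TOKf F C v P) {i j : Fin 4} (hij : i ≠ j) {a b d : V} (hbd : b ≠ d)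
    (h1 : s(a, b) ∈ (P i j).edges) (h2 : s(a, d) ∈ (P i j).edges) :
    ∀ k m, k ≠ m → ∀ y, s(a, y) ∈ (P k m).edges → y = b ∨ y = d := by
  classical
  have hone : ∀ {x y : V} (p : F.Walk x y), p.IsPath → s(x, b) ∈ p.edges → s(x, d) ∈ p.edges →
      False := by
    intro x y p hp g1 g2
    have hn := nb_start p hp
    have hsub : ({b, d} : Set V) ⊆ nb p x := by
      rintro z (rfl | rfl)
      · exact g1
      · exact g2
    have := Set.ncard_le_ncard hsub hn.1
    rw [Set.ncard_pair hbd] at this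
    omega
  have hi : a ≠ v i := by
    intro hh
    rw [hh] at h1 h2
    exact hone _ (h.path i j hij).1 h1 h2
  have hj : a ≠ v j := by
    intro hh
    rw [hh] at h1 h2
    exact hone _ (h.path j i (Ne.symm hij)).1 (h.symE hij h1) (h.symE hij h2)
  intro k m hkm y hy
  by_cases hs : s(i, j) = s(k, m)
  · have hy' : s(a, y) ∈ (P i j).edges := by
      rw [Sym2.eq_iff] at hs
      rcases hs with ⟨h3, h4⟩ | ⟨h3, h4⟩
      · subst h3; subst h4; exact hy
      · subst h3; subst h4; exact h.symE hkm hy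
    by_contra hcon
    push Not at hcon
    have hn := nb_le_two (P i j) (h.path i j hij).1 a
    have hsub : (({y, b, d} : Finset V) : Set V) ⊆ nb (P i j) a := by
      intro z hz
      simp only [Finset.coe_insert, Finset.coe_singleton, Set.mem_insert_iff,
        Set.mem_singleton_iff] at hz
      rcases hz with rfl | rfl | rfl
      · exact hy'
      · exact h1
      · exact h2
    have := Set.ncard_le_ncard hsub hn.1
    rw [Set.ncard_coe_finset, Finset.card_insert_of_notMem (by simp [hcon.1, hcon.2]),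
      Finset.card_insert_of_notMem (by simp [hbd]), Finset.card_singleton] at this
    have := this.trans hn.2
    omega
  · exfalso
    rcases (h.disj i j k m hij hkm hs a (Walk.fst_mem_support_of_mem_edges _ h1)
      (Walk.fst_mem_support_of_mem_edges _ hy)).1 with h3 | h3
    · exact hi h3
    · exact hj h3

/-- A branch vertex has three used edges. -/
lemma TOKf.three (h : TOKf F C v P) (i : Fin 4) : ∃ y1 y2 y3, y1 ≠ y2 ∧ y1 ≠ y3 ∧ y2 ≠ y3 ∧
    ∀ y ∈ ({y1, y2, y3} : Set V), ∃ j, i ≠ j ∧ s(v i, y) ∈ (P i j).edges := by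
  have hex : ∃ j k l : Fin 4, i ≠ j ∧ i ≠ k ∧ i ≠ l ∧ j ≠ k ∧ j ≠ l ∧ k ≠ l := by
    revert i; decide
  obtain ⟨j, k, l, hij, hik, hil, hjk, hjl, hkl⟩ := hex
  obtain ⟨y1, -, e1⟩ := exists_first_edge (P i j) (fun hh => hij (h.inj hh))
  obtain ⟨y2, -, e2⟩ := exists_first_edge (P i k) (fun hh => hik (h.inj hh))
  obtain ⟨y3, -, e3⟩ := exists_first_edge (P i l) (fun hh => hil (h.inj hh))
  refine ⟨y1, y2, y3, ?_, ?_, ?_, ?_⟩
  · intro hh
    subst hh
    have := h.uniq hij hik e1 e2
    rw [Sym2.congr_right] at this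
    exact hjk this
  · intro hh
    subst hh
    have := h.uniq hij hil e1 e3
    rw [Sym2.congr_right] at this
    exact hjl this
  · intro hh
    subst hh
    have := h.uniq hik hil e2 e3
    rw [Sym2.congr_right] at this
    exact hkl this
  · rintro y (rfl | rfl | rfl)
    · exact ⟨j, hij, e1⟩
    · exact ⟨k, hik, e2⟩
    · exact ⟨l, hil, e3⟩

/-- A used vertex with at most two neighbours `b`, `d` is an inner vertex of a path which uses
both edges. -/
lemma TOKf.two (h : TOKf F C v P) {m b d : V} (hm : ∀ y, F.Adj m y → y = b ∨ y = d)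
    {i j : Fin 4} (hij : i ≠ j) (hmem : m ∈ (P i j).support) :
    s(m, b) ∈ (P i j).edges ∧ s(m, d) ∈ (P i j).edges := by
  have hnb : ∀ k, v k ≠ m := by
    intro k hk
    obtain ⟨y1, y2, y3, n12, n13, n23, hy⟩ := h.three k
    have g : ∀ y ∈ ({y1, y2, y3} : Set V), y = b ∨ y = d := by
      intro y hy'
      obtain ⟨j, -, he⟩ := hy y hy'
      apply hm
      rw [← hk]
      exact Walk.adj_of_mem_edges _ he
    rcases g y1 (by simp) with e1 | e1 <;> rcases g y2 (by simp) with e2 | e2 <;>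
      rcases g y3 (by simp) with e3 | e3
    · exact n12 (e1.trans e2.symm)
    · exact n12 (e1.trans e2.symm)
    · exact n13 (e1.trans e3.symm)
    · exact n23 (e2.trans e3.symm)
    · exact n23 (e2.trans e3.symm)
    · exact n13 (e1.trans e3.symm)
    · exact n12 (e1.trans e2.symm)
    · exact n12 (e1.trans e2.symm)
  obtain ⟨z, z', hzz, e1, e2⟩ := path_inner (P i j) (h.path i j hij).1 hmem
    (Ne.symm (hnb i)) (Ne.symm (hnb j))
  rcases hm z (Walk.adj_of_mem_edges _ e1) with r1 | r1 <;>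
    rcases hm z' (Walk.adj_of_mem_edges _ e2) with r2 | r2
  · exact absurd (r1.trans r2.symm) hzz
  · rw [r1] at e1; rw [r2] at e2; exact ⟨e1, e2⟩
  · rw [r1] at e1; rw [r2] at e2; exact ⟨e2, e1⟩
  · exact absurd (r1.trans r2.symm) hzz

end

end Pool.Agent.Helper1.SEP
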