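import Pool.Agent.Helper1.SEP.Lift
import Pool.Agent.Helper95.SEP.Defs

/-!
# World (2,2,0): the end of the proof

`Links G M`: links of both parities between any two roots of `M`, outside `M` and avoiding the third
root. `Two G M`: two of the three graphs `M + D_k` have a TOK4. `iiG`: the tie (ii).
`false_of_two_sides`: two minimal sides. `false_of_one_side`: one minimal side `M` and the tie (ii)
beside the other side for one of the corresponding roots.
-/

set_option autoImplicit false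

namespace Pool.Agent.Helper1.SEP

open SimpleGraph Pool.Agent.Helper57.TOK Pool.Agent.Helper57.TD Pool.Agent.Helper57.TOP
  Pool.Agent.Helper82.TK Pool.Agent.Helper95.SEP

variable {V : Type*}

/-- Links of both parities outside `M`. -/
def Links (G : SimpleGraph V) (M : Set V) : Prop :=
  ∀ a b k, Roots G M a b k → ∀ t : ZMod 2, ∃ R : G.Walk a b, R.IsPath ∧ wt (One V) R = t ∧
    ∀ x ∈ R.support, x ∉ M ∧ x ≠ k

/-- Two of the three graphs `M + D_k` have a TOK4. -/
def Two (G : SimpleGraph V) (M : Set V) : Prop :=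
  ∀ a b k, Roots G M a b k →
    (HasTOK4s (dG G M a b k) (One V) ∧ HasTOK4s (dG G M b k a) (One V)) ∨
    (HasTOK4s (dG G M a b k) (One V) ∧ HasTOK4s (dG G M k a b) (One V)) ∨
    (HasTOK4s (dG G M b k a) (One V) ∧ HasTOK4s (dG G M k a b) (One V))

/-- `M` with the tie (ii): `x ~ a, b, k` and the edge `a b`. -/
def iiG (G : SimpleGraph V) (M : Set V) (a b k x : V) : SimpleGraph V :=
  restr G M ⊔ fromEdgeSet {s(x, a), s(x, b), s(x, k), s(a, b)}

/-- unit vector -/
def eu (k : Fin 3) : Fin 3 → ZMod 2 := fun t => if t = k then 1 else 0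

section

variable {G : SimpleGraph V} {U M : Set V}

lemma restr_le' : restr G M ≤ G := fun _ _ h => h.1

lemma supp_restr_sub : ∀ x ∈ supp (restr G M), x ∈ M ∪ Nb G M := by
  rintro x ⟨y, h1, h2⟩
  by_cases hx : x ∈ M
  · exact Or.inl hx
  · rcases h2 with h2 | h2
    · exact absurd h2 hx
    · exact Or.inr ⟨hx, y, h2, h1.symm⟩

lemma Links.sup (h : Links G M) {a b k : V} (hr : Roots G M a b k) (t : ZMod 2) :
    ∃ R : G.Walk a b, R.IsPath ∧ wt (fun _ => 1) R = t ∧
      ∀ x ∈ R.support, x ∈ M ∪ Nb G M → x = a ∨ x = b := by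
  obtain ⟨R, h1, h2, h3⟩ := h a b k hr t
  refine ⟨R, h1, h2, ?_⟩
  intro x hx hxM
  rcases hxM with hxM | hxM
  · exact absurd hxM (h3 x hx).1
  · rw [hr.eq] at hxM
    rcases hxM with hxM | hxM | hxM
    · exact Or.inl hxM
    · exact Or.inr hxM
    · exact absurd hxM (h3 x hx).2

/-- The flexible link lifts. -/
theorem tok_of_fG (hL : Links G M) {a b k m : V} (hr : Roots G M a b k) (hm : m ∉ M)
    (hm' : m ∉ Nb G M) (h : HasTOK4s (fG G M a b m) (One V)) : HasTOK4s G (One V) :=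
  lift_phi (S := M ∪ Nb G M) restr_le' supp_restr_sub (fun hh => hh.elim hm hm')
    (Or.inr hr.ma) (Or.inr hr.mb) hr.ab (hL.sup hr 1) (hL.sup hr 0) h

/-- Extraction of a net. -/
theorem net_of_dG (hL : Links G M) {a b k : V} (hr : Roots G M a b k)
    (h : HasTOK4s (dG G M a b k) (One V)) :
    HasTOK4s G (One V) ∨ Net G (One V) (M ∪ Nb G M) ![a, b, k] (eu 2) :=
  extract (S := M ∪ Nb G M) restr_le' supp_restr_sub (Or.inr hr.mc) (Or.inr hr.ma)
    (Or.inr hr.mb) hr.ak.symm hr.bk.symm hr.ab (hL.sup hr.rot.rot 1)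
    (by
      obtain ⟨R, h1, h2, h3⟩ := hL.sup hr.swap.rot.rot 1
      exact ⟨R, h1, h2, h3⟩) (hL.sup hr 0) h

end

lemma perm_of (i j k : Fin 3) (h1 : i ≠ j) (h2 : i ≠ k) (h3 : j ≠ k) :
    ∃ σ : Equiv.Perm (Fin 3), σ 0 = i ∧ σ 1 = j ∧ σ 2 = k := by
  revert i j k; decide

lemma perm_of' (i j k : Fin 3) (h1 : i ≠ j) (h2 : i ≠ k) (h3 : j ≠ k) :
    ∃ σ : Equiv.Perm (Fin 3), σ i = 0 ∧ σ j = 1 ∧ σ k = 2 := by
  revert i j k; decide

section

variable {G : SimpleGraph V} {U M : Set V} {l : Fin 3 → V}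

lemma roots_of (hl : Function.Injective l) (hr : Set.range l = Nb G M) {i j k : Fin 3}
    (h1 : i ≠ j) (h2 : i ≠ k) (h3 : j ≠ k) : Roots G M (l i) (l j) (l k) where
  eq := by
    rw [← hr]
    ext x
    simp only [Set.mem_range, Set.mem_insert_iff, Set.mem_singleton_iff]
    constructor
    · rintro ⟨t, rfl⟩
      have : t = i ∨ t = j ∨ t = k := by omega
      rcases this with h | h | h
      · exact Or.inl (by rw [h])
      · exact Or.inr (Or.inl (by rw [h]))
      · exact Or.inr (Or.inr (by rw [h]))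
    · rintro (h | h | h)
      · exact ⟨i, h.symm⟩
      · exact ⟨j, h.symm⟩
      · exact ⟨k, h.symm⟩
  ab := fun h => h1 (hl h)
  ak := fun h => h2 (hl h)
  bk := fun h => h3 (hl h)

/-- Extraction with an enumeration of the roots. -/
theorem net_of_dG' (hL : Links G M) (hl : Function.Injective l) (hr : Set.range l = Nb G M)
    (hbad : ¬ HasTOK4s G (One V)) {i j k : Fin 3} (h1 : i ≠ j) (h2 : i ≠ k) (h3 : j ≠ k)
    (h : HasTOK4s (dG G M (l i) (l j) (l k)) (One V)) :
    Net G (One V) (M ∪ Nb G M) l (eu k) := by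
  rcases net_of_dG hL (roots_of hl hr h1 h2 h3) h with h4 | h4
  · exact absurd h4 hbad
  · obtain ⟨σ, e1, e2, e3⟩ := perm_of' i j k h1 h2 h3
    have h5 := h4.perm σ
    have hl' : (fun t => (![l i, l j, l k] : Fin 3 → V) (σ t)) = l := by
      funext t
      have : t = i ∨ t = j ∨ t = k := by omega
      rcases this with h | h | h
      · rw [h, e1]; rfl
      · rw [h, e2]; rfl
      · rw [h, e3]; rfl
    rw [hl'] at h5
    refine h5.congr ?_
    intro t
    unfold eu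
    have : t = i ∨ t = j ∨ t = k := by omega
    rcases this with h | h | h
    · rw [h, e1, if_neg (by decide), if_neg h2]
    · rw [h, e2, if_neg (by decide), if_neg h3]
    · rw [h, e3, if_pos rfl, if_pos rfl]

/-- Two nets with unit vectors. -/
theorem two_nets (hL : Links G M) (hT : Two G M) (hl : Function.Injective l)
    (hr : Set.range l = Nb G M) (hbad : ¬ HasTOK4s G (One V)) :
    ∃ p q : Fin 3, p ≠ q ∧ Net G (One V) (M ∪ Nb G M) l (eu p) ∧
      Net G (One V) (M ∪ Nb G M) l (eu q) := by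
  have n := fun {i j k : Fin 3} h1 h2 h3 h => net_of_dG' (i := i) (j := j) (k := k) hL hl hr hbad
    h1 h2 h3 h
  rcases hT (l 0) (l 1) (l 2) (roots_of hl hr (by decide) (by decide) (by decide)) with
    ⟨h1, h2⟩ | ⟨h1, h2⟩ | ⟨h1, h2⟩
  · exact ⟨2, 0, by decide, n (by decide) (by decide) (by decide) h1,
      n (by decide) (by decide) (by decide) h2⟩
  · exact ⟨2, 1, by decide, n (by decide) (by decide) (by decide) h1,
      n (by decide) (by decide) (by decide) h2⟩
  · exact ⟨0, 1, by decide, n (by decide) (by decide) (by decide) h1,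
      n (by decide) (by decide) (by decide) h2⟩

/-- Lifting of the tie (ii) through a net outside `M`. -/
theorem tok_of_iiG (hr : Set.range l = Nb G M)
    {S' : Set V} (hS' : ∀ y ∈ S', y ∉ M)
    {i j k : Fin 3} (h1 : i ≠ j) (h2 : i ≠ k) (h3 : j ≠ k)
    (hN : Net G (One V) S' l (eu k)) {x : V} (hx : x ∉ M) (hx' : x ∉ Nb G M)
    (h : HasTOK4s (iiG G M (l i) (l j) (l k) x) (One V)) : HasTOK4s G (One V) := by
  obtain ⟨σ, e0, e1, e2⟩ := perm_of i j k h1 h2 h3
  have hN' := hN.perm σ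
  refine lift_II (S := M ∪ Nb G M) (S' := S') (H := restr G M) (l := fun t => l (σ t)) (x := x)
    restr_le' supp_restr_sub ?_ (fun hh => hh.elim hx hx') ?_ ?_ ?_
  · intro t
    right
    rw [← hr]
    exact ⟨σ t, rfl⟩
  · refine hN'.congr ?_
    intro t
    unfold eu
    by_cases ht : t = 2
    · rw [if_pos ht, ht, e2, if_pos rfl]
    · rw [if_neg ht, if_neg]
      intro hh
      exact ht (σ.injective (hh.trans e2.symm))
  · intro y hy hy'
    rcases hy with hy | hy
    · exact absurd hy (hS' y hy')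
    · rw [← hr] at hy
      obtain ⟨t, rfl⟩ := hy
      exact ⟨σ.symm t, by simp⟩
  · show HasTOK4s (restr G M ⊔ fromEdgeSet {s(x, l (σ 0)), s(x, l (σ 1)), s(x, l (σ 2)),
      s(l (σ 0), l (σ 1))}) (One V)
    rw [e0, e1, e2]
    exact h

/-- PRISM with an enumeration of the roots: a net in `M` and a net outside `M` whose types differ
in exactly one place. -/
theorem tok_of_two_nets (hr : Set.range l = Nb G M) {S' : Set V} (hS' : ∀ y ∈ S', y ∉ M)
    {u v : Fin 3 → ZMod 2} {m : Fin 3} (hu : Net G (One V) (M ∪ Nb G M) l u)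
    (hv : Net G (One V) S' l v) (huv : ∀ t, u t + v t = eu m t) : HasTOK4s G (One V) := by
  refine tok_of_net_trip hu (hv.trip m) ?_ ?_
  · intro t
    have h := huv t
    unfold eu at h
    by_cases ht : t = m
    · rw [if_pos ht] at h ⊢
      exact h
    · rw [if_neg ht] at h ⊢
      have : u t + (1 + v t) = 1 + (u t + v t) := by ring
      rw [this, h, add_zero]
  · intro y hy hy'
    rcases hy with hy | hy
    · exact absurd hy (hS' y hy')
    · rw [← hr] at hy
      obtain ⟨t, rfl⟩ := hy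
      exact ⟨t, rfl⟩

end

/-- The parity step. -/
lemma parity (s0 s1 s2 : ZMod 2) (a b p q : Fin 3) (hab : a ≠ b) (hpq : p ≠ q) :
    (∃ m, ∀ t, eu a t + (![s0, s1, s2] : Fin 3 → ZMod 2) t = eu m t) ∨
    (∃ m, ∀ t, eu b t + (![s0, s1, s2] : Fin 3 → ZMod 2) t = eu m t) ∨
    (∃ m, ∀ t, eu p t + (eu a t + (![s0, s1, s2] : Fin 3 → ZMod 2) t) = eu m t) ∨
    (∃ m, ∀ t, eu p t + (eu b t + (![s0, s1, s2] : Fin 3 → ZMod 2) t) = eu m t) ∨
    (∃ m, ∀ t, eu q t + (eu a t + (![s0, s1, s2] : Fin 3 → ZMod 2) t) = eu m t) ∨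
    (∃ m, ∀ t, eu q t + (eu b t + (![s0, s1, s2] : Fin 3 → ZMod 2) t) = eu m t) := by
  revert s0 s1 s2 a b p q
  unfold eu
  decide

/-- Linkage between two sides. -/
theorem exists_linkage [Finite V] {G : SimpleGraph V} {U M1 M2 : Set V}
    (he : ∀ u v, G.Adj u v → u ∈ U)
    (hconn : ∀ Y ⊆ U, 2 ≤ Y.ncard → (Nb G Y).ncard ≤ 2 → (U \ (Y ∪ Nb G Y)).ncard ≤ 1)
    (h1 : M1 ⊆ U) (h2 : M2 ⊆ U) (c1 : 2 ≤ M1.ncard) (c2 : 2 ≤ M2.ncard)
    (hdis : Disjoint M1 M2) (hno : Disjoint M2 (Nb G M1))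
    (n1 : (Nb G M1).ncard = 3) (n2 : (Nb G M2).ncard = 3) :
    ∃ (l1 l2 : Fin 3 → V) (Q : ∀ i, G.Walk (l2 i) (l1 i)), Function.Injective l1 ∧
      Function.Injective l2 ∧ Set.range l1 = Nb G M1 ∧ Set.range l2 = Nb G M2 ∧
      (∀ i, (Q i).IsPath) ∧ (∀ i, ∀ x ∈ (Q i).support, x ∉ M1) ∧
      (∀ i, ∀ x ∈ (Q i).support, x ∈ M2 ∪ Nb G M2 → x = l2 i) ∧
      ∀ i j, i ≠ j → ∀ x, x ∈ (Q i).support → x ∉ (Q j).support := by
  classical
  obtain ⟨l1, hl1, hr1⟩ := exists_enum n1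
  have hno' : ∀ u v, u ∈ M1 → v ∈ M2 → ¬ G.Adj u v := by
    intro u v hu hv huv
    have hvM : v ∉ M1 := fun hh => (Set.disjoint_left.1 hdis) hh hv
    exact (Set.disjoint_left.1 hno) hv ⟨hvM, u, hu, huv⟩
  set G' := delG G M2 with hG'
  have hNb : Nb G' M1 = Nb G M1 := by
    refine Nb_congr ?_
    intro u v hu _
    rw [hG', delG_adj]
    constructor
    · exact fun h => h.1
    · intro h
      exact ⟨h, fun hh => (Set.disjoint_left.1 hdis) hu hh, fun hh => hno' u v hu hh h⟩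
  have hT : Disjoint M1 (Nb G M2) := by
    rw [Set.disjoint_left]
    rintro x hx ⟨-, y, hy, hyx⟩
    exact hno' x y hx hy hyx.symm
  obtain ⟨t, P, p1, p2, p3, p4, p5⟩ := linkage_of_Nb (G := G') (Y := M1) (T := Nb G M2) (n := l1)
    hl1 (by rw [hNb]; exact hr1.symm) hT (by
      intro Y' hY' hYT
      by_contra hlt
      push Not at hlt
      set Y3 : Set V := {x | x ∈ Y' ∧ x ∉ M2 ∧ x ∈ U} with hY3
      have hnb : ∀ v ∈ Nb G Y3, v ∉ M2 ∧ v ∈ Nb G' Y' := by
        rintro v ⟨hv, u, hu, huv⟩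
        have hvM : v ∉ M2 := by
          intro hh
          exact (Set.disjoint_left.1 hYT) hu.1 ⟨hu.2.1, v, hh, huv.symm⟩
        refine ⟨hvM, fun hh => hv ⟨hh, hvM, he v u huv.symm⟩, u, hu.1, ?_⟩
        rw [hG', delG_adj]
        exact ⟨huv, hu.2.1, hvM⟩
      have hsub : M1 ⊆ Y3 := fun x hx =>
        ⟨hY' hx, fun hh => (Set.disjoint_left.1 hdis) hx hh, h1 hx⟩
      have hle : (Nb G Y3).ncard ≤ (Nb G' Y').ncard :=
        Set.ncard_le_ncard (fun v hv => (hnb v hv).2) (Set.toFinite _)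
      have h3 := hconn Y3 (fun x hx => hx.2.2)
        (c1.trans (Set.ncard_le_ncard hsub (Set.toFinite _))) (by omega)
      have h4 : M2 ⊆ U \ (Y3 ∪ Nb G Y3) := by
        intro x hx
        refine ⟨h2 hx, ?_⟩
        rintro (h5 | h5)
        · exact h5.2.1 hx
        · exact (hnb x h5).1 hx
      have := Set.ncard_le_ncard h4 (Set.toFinite _)
      omega)
  have hl1M : ∀ i, l1 i ∉ M2 := by
    intro i hh
    refine (Set.disjoint_left.1 hno) hh ?_
    rw [← hr1]; exact ⟨i, rfl⟩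
  have ht : Function.Injective t := injective_end p5
  have hrt : Set.range t = Nb G M2 := by
    apply Set.eq_of_subset_of_ncard_le
    · rintro x ⟨i, rfl⟩
      exact (p1 i).1
    · rw [n2, ← Set.image_univ, Set.ncard_image_of_injective _ ht, Set.ncard_univ]
      simp
    · exact Set.toFinite _
  refine ⟨l1, t, fun i => ((P i).mapLe (delG_le G M2)).reverse, hl1, ht, hr1, hrt, ?_, ?_, ?_, ?_⟩
  · intro i
    exact ((Walk.isPath_mapLe _).2 (p1 i).2).reverse
  · intro i x hx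
    rw [Walk.support_reverse, List.mem_reverse, Walk.support_mapLe_eq_support] at hx
    exact p2 i x hx
  · intro i x hx hx'
    rw [Walk.support_reverse, List.mem_reverse, Walk.support_mapLe_eq_support] at hx
    rcases hx' with hx' | hx'
    · exact absurd hx' (notMem_of_mem_support_delG (P i) (hl1M i) x hx)
    · exact p4 i x hx hx'
  · intro i j hij x hx hx'
    rw [Walk.support_reverse, List.mem_reverse, Walk.support_mapLe_eq_support] at hx hx'
    exact p5 i j hij x hx hx'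

/-- FINAL FORM X: two minimal sides. -/
theorem false_of_two_sides [Finite V] {G : SimpleGraph V} {U M1 M2 : Set V}
    (he : ∀ u v, G.Adj u v → u ∈ U)
    (hconn : ∀ Y ⊆ U, 2 ≤ Y.ncard → (Nb G Y).ncard ≤ 2 → (U \ (Y ∪ Nb G Y)).ncard ≤ 1)
    (hbad : ¬ HasTOK4s G (One V))
    (h1 : M1 ⊆ U) (h2 : M2 ⊆ U) (c1 : 2 ≤ M1.ncard) (c2 : 2 ≤ M2.ncard)
    (hdis : Disjoint M1 M2) (hno : Disjoint M2 (Nb G M1))
    (n1 : (Nb G M1).ncard = 3) (n2 : (Nb G M2).ncard = 3)
    (L1 : Links G M1) (L2 : Links G M2) (A1 : Two G M1) (A2 : Two G M2)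
    (B1 : ∀ a b k x, Roots G M1 a b k → x ∈ U → x ∉ M1 → x ∉ Nb G M1 →
      HasTOK4s (iiG G M1 a b k x) (One V)) : False := by
  obtain ⟨l1, l2, Q, i1, i2, r1, r2, q1, q2, q3, q4⟩ :=
    exists_linkage he hconn h1 h2 c1 c2 hdis hno n1 n2
  obtain ⟨p, q, hpq, np, nq⟩ := two_nets L1 A1 i1 r1 hbad
  obtain ⟨a, b, hab, na, nb⟩ := two_nets L2 A2 i2 r2 hbad
  obtain ⟨x, hx⟩ : ∃ x, x ∈ M2 := by
    apply Set.nonempty_of_ncard_ne_zero
    omega
  have hx1 : x ∉ M1 := fun hh => (Set.disjoint_left.1 hdis) hh hx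
  have hx2 : x ∉ Nb G M1 := fun hh => (Set.disjoint_left.1 hno) hx hh
  set S' : Set V := {y | y ∉ M1} with hS'def
  have hS' : ∀ y ∈ S', y ∉ M1 := fun y hy => hy
  have hsub : M2 ∪ Nb G M2 ⊆ S' := by
    rintro y (hy | hy) hy1
    · exact (Set.disjoint_left.1 hdis) hy1 hy
    · obtain ⟨hy2, z, hz, hzy⟩ := hy
      refine (Set.disjoint_left.1 hno) hz ⟨fun hh => (Set.disjoint_left.1 hdis) hh hz, y, hy1,
        hzy.symm⟩
  -- the nets of `M2` seen from `M1`
  set s : Fin 3 → ZMod 2 := fun i => wt (One V) (Q i) with hs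
  have ext : ∀ c : Fin 3 → ZMod 2, Net G (One V) (M2 ∪ Nb G M2) l2 c →
      Net G (One V) S' l1 (fun i => c i + s i) := by
    intro c hc
    exact hc.extend Q (fun i => ⟨q1 i, rfl⟩) q4 q3 hsub q2
  have hsv : s = ![s 0, s 1, s 2] := by
    funext t
    fin_cases t <;> rfl
  have two : ∀ c, Net G (One V) S' l1 c → (∃ m, ∀ t, c t = eu m t) → False := by
    rintro c hc ⟨m, hm⟩
    have hc' := hc.congr hm
    obtain ⟨i, j, hij, him, hjm⟩ : ∃ i j : Fin 3, i ≠ j ∧ i ≠ m ∧ j ≠ m := by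
      clear hm hc'; revert m; decide
    refine hbad (tok_of_iiG r1 hS' hij him hjm hc' hx1 hx2 ?_)
    exact B1 _ _ _ x (roots_of i1 r1 hij him hjm) (h2 hx) hx1 hx2
  have pr : ∀ (c : Fin 3 → ZMod 2) (r : Fin 3), Net G (One V) (M1 ∪ Nb G M1) l1 (eu r) →
      Net G (One V) S' l1 c → (∃ m, ∀ t, eu r t + c t = eu m t) → False := by
    rintro c r hr hc ⟨m, hm⟩
    exact hbad (tok_of_two_nets r1 hS' hr hc hm)
  have par := parity (s 0) (s 1) (s 2) a b p q hab hpq
  rw [← hsv] at par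
  rcases par with h | h | h | h | h | h
  · exact two _ (ext _ na) h
  · exact two _ (ext _ nb) h
  · exact pr _ p np (ext _ na) h
  · exact pr _ p np (ext _ nb) h
  · exact pr _ q nq (ext _ na) h
  · exact pr _ q nq (ext _ nb) h

/-- FINAL FORM Y: one minimal side `M` and the other side `R` with the same roots; for one of any
two roots the tie (ii) beside `R` gives a TOK4. -/
theorem false_of_one_side {G : SimpleGraph V} {M R : Set V} (hbad : ¬ HasTOK4s G (One V))
    (hdis : Disjoint M R) (hRM : Nb G R = Nb G M) (hMne : ∃ x, x ∈ M)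
    {l : Fin 3 → V} (hl : Function.Injective l) (hr : Set.range l = Nb G M)
    (hL : Links G M) (hA : Two G M)
    (hB : ∀ p q : Fin 3, p ≠ q → ∃ k, (k = p ∨ k = q) ∧ ∃ i j, i ≠ j ∧ i ≠ k ∧ j ≠ k ∧
      ∀ x ∈ M, HasTOK4s (iiG G R (l i) (l j) (l k) x) (One V)) : False := by
  obtain ⟨p, q, hpq, np, nq⟩ := two_nets hL hA hl hr hbad
  obtain ⟨k, hk, i, j, hij, hik, hjk, hx⟩ := hB p q hpq
  obtain ⟨x, hxM⟩ := hMne
  have hS' : ∀ y ∈ M ∪ Nb G M, y ∉ R := by
    rintro y (hy | hy) hyR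
    · exact (Set.disjoint_left.1 hdis) hy hyR
    · rw [← hRM] at hy
      exact hy.1 hyR
  have hN : Net G (One V) (M ∪ Nb G M) l (eu k) := by
    rcases hk with rfl | rfl
    · exact np
    · exact nq
  refine hbad (tok_of_iiG (hr.trans hRM.symm) hS' hij hik hjk hN
    (fun hh => (Set.disjoint_left.1 hdis) hxM hh) ?_ (hx x hxM))
  rw [hRM]
  exact fun hh => hh.1 hxM

end Pool.Agent.Helper1.SEP
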